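import Pool.Agent.TH322.BC.Size
import Pool.Agent.W353.L1.Pairs

/-! Bounds for sizes from a bound for the second moment of the coefficients. -/

set_option autoImplicit false

namespace Pool.Agent.X288.L2

open Complex Filter Topology ComplexConjugate NumberField IsDedekindDomain Asymptotics
  Pool.Agent.W401.Cheb Pool.Agent.W540.BE Pool.Agent.W353.L1 Pool.Agent.W353.NF
open Pool.Agent.W353.TP (HX sysH LL LL_tendsto E_H EH_eq bdd_isLittleO lam0_sub)
open Pool.Agent.H341R2 (lam lam_tendsto sysK)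

section
variable {K : Type} [Field K] [NumberField K]

theorem EH_mono {ε : ℝ} (hε : 0 < ε) {φ ψ : HX K → ℝ} {B B' : ℝ} (h : ∀ x, |φ x| ≤ B)
    (h' : ∀ x, |ψ x| ≤ B') (hle : ∀ x, φ x ≤ ψ x) : (sysH K).E ε φ ≤ (sysH K).E ε ψ := by
  unfold Pool.Agent.H341R2.NormSys.E
  refine Summable.tsum_le_tsum (fun x => ?_) ((sysH K).summable_E hε h) ((sysH K).summable_E hε h')
  exact mul_le_mul_of_nonneg_right (hle x) ((sysH K).w_nonneg ε x)

/-- the second moment of `T` is at most `β log (1/ε)` -/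
def Sec (T : HX K → ℝ) (β : ℝ) : Prop :=
  ∃ C : ℝ, ∀ᶠ ε : ℝ in 𝓝[>] 0, (sysH K).E ε (fun x => T x ^ 2) ≤ β * LL ε + C

/-- **Bounds for sizes** from `|t y| ≤ (c/2) t² + G(y)` -/
theorem size_le_G {T : HX K → ℝ} {Ψ : HeightOneSpectrum (𝓞 K) → ℝ} {X : ℝ → ℝ}
    {N B B' β A c : ℝ} {G : ℝ → ℝ}
    (hT : ∀ x, |T x| ≤ N) (hB : ∀ v, |Ψ v| ≤ B) (hS : SzH T Ψ X) (hsec : Sec T β)
    (hc : 0 ≤ c) (hGB : ∀ v, |G (Ψ v)| ≤ B')
    (hG : ∀ t y : ℝ, |t| ≤ N → |t * y| ≤ c / 2 * t ^ 2 + G y)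
    (hA : ∀ η : ℝ, 0 < η → ∀ᶠ ε : ℝ in 𝓝[>] 0, (EP (nm K) ε fun v => G (Ψ v)) / lam ε ≤ A + η)
    {η : ℝ} (hη : 0 < η) : ∀ᶠ ε : ℝ in 𝓝[>] 0, |X ε| ≤ c / 2 * β + A + η := by
  obtain ⟨C1, hC1⟩ := hsec
  have hG0 : ∀ y, 0 ≤ G y := by
    intro y
    have h := hG 0 y (by
      rw [abs_zero]
      exact (abs_nonneg _).trans (hT ((sysH K).nonempty.some)))
    simpa using h
  obtain ⟨C2, hC2⟩ := EH_le (K := K) (φ := fun x => G (Ψ (vx x))) (g := fun v => G (Ψ v))
    (B := B') hGB (fun x => by rw [abs_of_nonneg (hG0 _)])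
  have hA0 : 0 ≤ A := by
    by_contra h
    have h' : 0 < -A / 2 := by linarith [not_le.1 h]
    obtain ⟨ε, h1, h2, h3⟩ := ((hA (-A / 2) h').and ((lam_tendsto.eventually_gt_atTop 0).and
      (self_mem_nhdsWithin (s := Set.Ioi (0 : ℝ))))).exists
    have h4 : 0 ≤ (EP (nm K) ε fun v => G (Ψ v)) / lam ε := by
      refine div_nonneg ?_ h2.le
      have := (sysK K).E_nonneg (ε := ε) (φ := fun v => G (Ψ v)) fun v => hG0 _
      exact this
    linarith
  have h1 := hA (η / 4) (by positivity)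
  have h2 := isLittleO_iff.1 hS (c := η / 4) (by positivity)
  have h3 := isLittleO_iff.1 (lam0_sub) (c := η / (4 * (A + η + 1))) (by positivity)
  filter_upwards [h1, h2, h3, LL_tendsto.eventually_ge_atTop
    (4 * (|c / 2 * C1 + C2| + 1) / η), hC1,
    lam_tendsto.eventually_gt_atTop 0, self_mem_nhdsWithin] with ε g1 g2 g3 g4 g4' g5 g6
  have hε : (0 : ℝ) < ε := g6
  have hL : 0 < LL ε := lt_of_lt_of_le (by positivity) g4
  rw [Real.norm_eq_abs, Real.norm_eq_abs, abs_of_pos hL] at g2 g3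
  have g7 := hC2 ε hε
  rw [div_le_iff₀ g5] at g1
  have g9 : lam ε ≤ LL ε + η / (4 * (A + η + 1)) * LL ε := by
    have := (abs_le.1 g3).2
    linarith
  have g10 : |c / 2 * C1 + C2| + 1 ≤ η / 4 * LL ε := by
    rw [div_le_iff₀ hη] at g4
    linarith
  -- the pointwise inequality
  have hN0 : 0 ≤ N := (abs_nonneg _).trans (hT ((sysH K).nonempty.some))
  have hB0 : 0 ≤ B' := (abs_nonneg _).trans (hGB (vx ((sysH K).nonempty.some)))
  have k1 : |(sysH K).E ε (fun x => T x * Ψ (vx x))| ≤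
      c / 2 * (sysH K).E ε (fun x => T x ^ 2) + (sysH K).E ε (fun x => G (Ψ (vx x))) := by
    have e1 : (sysH K).E ε (fun x => c / 2 * T x ^ 2 + G (Ψ (vx x))) =
        c / 2 * (sysH K).E ε (fun x => T x ^ 2) + (sysH K).E ε (fun x => G (Ψ (vx x))) := by
      rw [← (sysH K).E_const_mul, ← (sysH K).E_add hε (B := c / 2 * N ^ 2) (B' := B')]
      · intro x
        rw [abs_mul, abs_of_nonneg (by positivity : 0 ≤ c / 2), abs_pow]
        exact mul_le_mul_of_nonneg_left (pow_le_pow_left₀ (abs_nonneg _) (hT x) 2) (by positivity)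
      · intro x
        exact hGB _
    rw [← e1]
    unfold Pool.Agent.H341R2.NormSys.E
    rw [← Real.norm_eq_abs]
    have hs2 := (sysH K).summable_E hε (φ := fun x => c / 2 * T x ^ 2 + G (Ψ (vx x)))
      (B := c / 2 * N ^ 2 + B') (fun x => by
        refine (abs_add_le _ _).trans (add_le_add ?_ (hGB _))
        rw [abs_mul, abs_of_nonneg (by positivity : 0 ≤ c / 2), abs_pow]
        exact mul_le_mul_of_nonneg_left (pow_le_pow_left₀ (abs_nonneg _) (hT x) 2) (by positivity))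
    refine tsum_of_norm_bounded hs2.hasSum fun x => ?_
    rw [Real.norm_eq_abs, abs_mul, abs_of_nonneg ((sysH K).w_nonneg ε x)]
    exact mul_le_mul_of_nonneg_right (hG _ _ (hT x)) ((sysH K).w_nonneg ε x)
  have k2 : (sysH K).E ε (fun x => G (Ψ (vx x))) ≤ (A + η / 4) * lam ε + C2 :=
    ((le_abs_self _).trans g7).trans (add_le_add g1 le_rfl)
  have k3 : (A + η / 4) * lam ε ≤ (A + η / 4) * LL ε + η / 4 * LL ε := by
    have q1 := mul_le_mul_of_nonneg_left g9 (by positivity : 0 ≤ A + η / 4)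
    have q2 : (A + η / 4) * (η / (4 * (A + η + 1))) ≤ η / 4 := by
      rw [mul_div_assoc', div_le_div_iff₀ (by positivity) (by norm_num)]
      nlinarith
    have q3 := mul_le_mul_of_nonneg_right q2 hL.le
    have e4 : (A + η / 4) * (LL ε + η / (4 * (A + η + 1)) * LL ε) =
        (A + η / 4) * LL ε + (A + η / 4) * (η / (4 * (A + η + 1))) * LL ε := by ring
    rw [e4] at q1
    linarith
  have k4 := mul_le_mul_of_nonneg_left g4' (by positivity : 0 ≤ c / 2)
  have g11 : |X ε| * LL ε ≤ (c / 2 * β + A + η) * LL ε := by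
    have e2 : |X ε| * LL ε = |X ε * LL ε| := by rw [abs_mul, abs_of_pos hL]
    rw [e2]
    have g12 : |X ε * LL ε| ≤ |(sysH K).E ε (fun x => T x * Ψ (vx x))| + η / 4 * LL ε := by
      have := abs_sub_abs_le_abs_sub (X ε * LL ε) ((sysH K).E ε (fun x => T x * Ψ (vx x)))
      linarith
    have g13 : c / 2 * C1 + C2 ≤ η / 4 * LL ε := by
      have := le_abs_self (c / 2 * C1 + C2)
      linarith
    have e7 : (c / 2 * β + A + η) * LL ε = c / 2 * (β * LL ε) + (A + η / 4) * LL ε +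
        η / 4 * LL ε + η / 4 * LL ε + η / 4 * LL ε := by
      ring
    rw [e7]
    have k4' : c / 2 * (sysH K).E ε (fun x => T x ^ 2) ≤ c / 2 * (β * LL ε) + c / 2 * C1 := by
      linarith
    linarith
  exact le_of_mul_le_mul_right g11 hL

end

end Pool.Agent.X288.L2
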