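import Pool.Agent.X288.L2.Defs
import Pool.Agent.X288.L2.Size
import Pool.Agent.W353.AB.EC
import Pool.Agent.Y722.EP.Point

/-! The second moment of the coefficients of a modular elliptic curve. -/

set_option autoImplicit false

namespace Pool.Agent.X288.L2

open Complex Filter Topology ComplexConjugate NumberField IsDedekindDomain Asymptotics
  Pool.Agent.W401.Cheb Pool.Agent.W540.BE Pool.Agent.W353.L1 Pool.Agent.W353.NF
open Pool.Agent.W353.TP (HX sysH LL LL_tendsto E_H EH_eq card_hom_le bdd_isLittleO lam0_sub)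
open Pool.Agent.H341R2 (lam lam_tendsto sysK)
open Pool.Agent.H341R2.EC (csum short short_eq aff aff_eq_short)
open Pool.Agent.W353.AB (syE tEH csH)
open Pool.Agent.Y722.EP (points IsNewformOf IsModular)
open Pool.Agent.Y722.RS (rc tt rc_eq)

section
set_option linter.unusedSectionVars false
variable {K : Type} [Field K] [NumberField K]

/-- the first invariant of `y² = x³ + a x + b` -/
noncomputable def PP (K : Type) [Field K] (a : ℤ) : 𝓞 K := ((-48 * a : ℤ) : 𝓞 K)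

/-- the second invariant of `y² = x³ + a x + b` -/
noncomputable def QQ (K : Type) [Field K] (b : ℤ) : 𝓞 K := ((-864 * b : ℤ) : 𝓞 K)

theorem PQ_eq (a b : ℤ) : PP K a ^ 3 - QQ K b ^ 2 =
    ((-27648 * (4 * a ^ 3 + 27 * b ^ 2) : ℤ) : 𝓞 K) := by
  unfold PP QQ
  push_cast
  ring

theorem PQ_ne {a b : ℤ} (h : 4 * a ^ 3 + 27 * b ^ 2 ≠ 0) : PP K a ^ 3 - QQ K b ^ 2 ≠ 0 := by
  rw [PQ_eq]
  exact_mod_cast mul_ne_zero (by norm_num) h

theorem EC_c4 (k : Type) [Field k] (a b : ℤ) : (EC k a b).c₄ = ((-48 * a : ℤ) : k) := by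
  simp only [EC, WeierstrassCurve.c₄, WeierstrassCurve.b₂, WeierstrassCurve.b₄]
  push_cast
  ring

theorem EC_c6 (k : Type) [Field k] (a b : ℤ) : (EC k a b).c₆ = ((-864 * b : ℤ) : k) := by
  simp only [EC, WeierstrassCurve.c₆, WeierstrassCurve.b₂, WeierstrassCurve.b₄,
    WeierstrassCurve.b₆]
  push_cast
  ring

/-- the character sum and the number of points -/
theorem csum_points (p : ℕ) [Fact p.Prime] (a b : ℤ) (h6 : (6 : ZMod p) ≠ 0) :
    csum ((-48 * a : ℤ) : ZMod p) ((-864 * b : ℤ) : ZMod p) =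
      points (ZMod p) a b - ((p : ℤ) + 1) := by
  have h1 := aff_eq_short h6 (EC (ZMod p) a b)
  rw [EC_c4, EC_c6] at h1
  have h2 := short_eq h6 ((-48 * a : ℤ) : ZMod p) ((-864 * b : ℤ) : ZMod p)
  have h3 : points (ZMod p) a b = aff (EC (ZMod p) a b) + 1 := by
    unfold points aff
    congr 1
    exact Nat.card_congr (Equiv.subtypeEquivRight fun P => by simp [EC])
  rw [h3, h1, Nat.cast_add, h2, ZMod.card]
  unfold csum
  push_cast
  ring

theorem TT_newform {N : ℕ} {f : Pool.Agent.Y722.RS.S2 N} {a b : ℤ} (hf : IsNewformOf f a b)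
    (x : HX K) (hp : ¬ (((x.1 : ℕ) : ℤ)) ∣ 6 * (4 * a ^ 3 + 27 * b ^ 2)) :
    TT (syE (PP K a) (QQ K b)) x = tt f x.1 := by
  rcases x with ⟨p, u⟩
  have hF : Fact (p : ℕ).Prime := ⟨p.2⟩
  have hp' : ¬ ((p : ℕ) : ℤ) ∣ 6 * (4 * a ^ 3 + 27 * b ^ 2) := hp
  have hp2 : ¬ ((p : ℕ) : ℤ) ∣ 2 * (4 * a ^ 3 + 27 * b ^ 2) := fun h => hp' (h.trans ⟨3, by ring⟩)
  have h6 : ((6 : ℤ) : ZMod (p : ℕ)) ≠ 0 := by
    rw [Ne, ZMod.intCast_zmod_eq_zero_iff_dvd]
    exact fun h => hp' (h.mul_right _)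
  have h6' : (6 : ZMod (p : ℕ)) ≠ 0 := by exact_mod_cast h6
  have hD : ((4 * a ^ 3 + 27 * b ^ 2 : ℤ) : ZMod (p : ℕ)) ≠ 0 := by
    rw [Ne, ZMod.intCast_zmod_eq_zero_iff_dvd]
    exact fun h => hp' (h.mul_left _)
  have hu6 : u (6 : 𝓞 K) ≠ 0 := by
    rw [map_ofNat]
    exact h6'
  have huD : u (PP K a ^ 3 - QQ K b ^ 2) ≠ 0 := by
    rw [PQ_eq, map_intCast]
    push_cast
    push_cast at hD
    refine mul_ne_zero ?_ hD
    have e : (-27648 : ZMod (p : ℕ)) = -(2 * 2 * 2 * 2 * 2 * 2 * 2 * 6 * 6 * 6) := by norm_num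
    rw [e, neg_ne_zero]
    have h2 : (2 : ZMod (p : ℕ)) ≠ 0 := by
      intro h
      apply h6'
      have : (6 : ZMod (p : ℕ)) = 3 * 2 := by norm_num
      rw [this, h, mul_zero]
    simp only [ne_eq, mul_eq_zero, h2, h6', or_self, not_false_eq_true]
  have hc : csH (PP K a) (QQ K b) ⟨p, u⟩ = points (ZMod (p : ℕ)) a b - (((p : ℕ) : ℤ) + 1) := by
    rw [← csum_points (p : ℕ) a b h6']
    unfold csH
    simp only
    congr 1
    · unfold PP
      rw [map_intCast]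
    · unfold QQ
      rw [map_intCast]
  have e1 : TT (syE (PP K a) (QQ K b)) ⟨p, u⟩ = (tEH (PP K a) (QQ K b) ⟨p, u⟩).re := by
    unfold Pool.Agent.W353.NF.TT
    exact Finset.sum_singleton _ _
  rw [e1]
  unfold tEH
  rw [if_pos ⟨hu6, huD⟩, hc]
  obtain ⟨-, h2⟩ := hf.2 p p.2 hp2
  have e2 : rc f (p : ℕ) = ((p : ℕ) : ℝ) + 1 - points (ZMod (p : ℕ)) a b := by
    unfold rc
    rw [h2]
    simp
  unfold tt
  rw [e2]
  have e3 : (-(((points (ZMod (p : ℕ)) a b : ℤ) - (((p : ℕ) : ℤ) + 1) : ℤ) : ℂ) *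
      ((Real.sqrt ((p : ℕ) : ℝ) : ℝ) : ℂ)⁻¹) =
      (((((p : ℕ) : ℝ) + 1 - points (ZMod (p : ℕ)) a b) / Real.sqrt (p : ℕ) : ℝ) : ℂ) := by
    push_cast
    ring
  rw [e3, Complex.ofReal_re]

theorem abs_TT_le (a b : ℤ) (x : HX K) : |TT (syE (PP K a) (QQ K b)) x| ≤ 2 := by
  refine (abs_TT _ x).trans (le_of_eq ?_)
  have : (∑ j ∈ (syE (PP K a) (QQ K b)).P, (syE (PP K a) (QQ K b)).b j) =
    ∑ _j ∈ ({()} : Finset Unit), (2 : ℝ) := rfl
  rw [this, Finset.sum_singleton]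

/-- **The second moment over `K`.** -/
theorem sec_curve {a b : ℤ} (hab : 4 * a ^ 3 + 27 * b ^ 2 ≠ 0) (h : IsModular a b) :
    Sec (TT (syE (PP K a) (QQ K b))) (Module.finrank ℚ K) := by
  classical
  obtain ⟨N, hN, f, hf⟩ := h
  obtain ⟨C, hC⟩ := Pool.Agent.Y722.RS.self_le hf.1
  set D : ℝ := (Module.finrank ℚ K : ℝ) with hD
  have hD0 : 0 ≤ D := Nat.cast_nonneg _
  set S : Finset Nat.Primes := (Pool.Agent.Y722.EP.finite_dvd
    (mul_ne_zero (by norm_num : (6 : ℤ) ≠ 0) hab)).toFinset with hS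
  refine ⟨D * C + S.card * (D * 4), ?_⟩
  filter_upwards [hC, self_mem_nhdsWithin] with ε h1 h2
  have hε : (0 : ℝ) < ε := h2
  have hTb : ∀ x : HX K, |TT (syE (PP K a) (QQ K b)) x ^ 2| ≤ 4 := by
    intro x
    rw [abs_pow]
    calc |TT (syE (PP K a) (QQ K b)) x| ^ 2 ≤ 2 ^ 2 :=
          pow_le_pow_left₀ (abs_nonneg _) (abs_TT_le a b x) 2
      _ = 4 := by norm_num
  refine (le_of_eq (EH_eq hε hTb)).trans ?_
  have htb : ∀ p : Nat.Primes, |tt f p * tt f p| ≤ 4 := by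
    intro p
    rw [abs_mul]
    calc |tt f p| * |tt f p| ≤ 2 * 2 := mul_le_mul (Pool.Agent.Y722.RS.tt_le hf.1 p.2)
          (Pool.Agent.Y722.RS.tt_le hf.1 p.2) (abs_nonneg _) (by norm_num)
      _ = 4 := by norm_num
  have hs2 := Pool.Agent.Y722.EP.summable_E (φ := fun p : Nat.Primes => tt f p * tt f p) htb hε
  have hub : ∀ p : Nat.Primes, ∑ u : 𝓞 K →+* ZMod (p : ℕ),
      TT (syE (PP K a) (QQ K b)) ⟨p, u⟩ ^ 2 ≤ D * 4 := by
    intro p
    refine (Finset.sum_le_card_nsmul _ _ 4 fun u _ => (le_abs_self _).trans (hTb _)).trans ?_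
    rw [nsmul_eq_mul, Finset.card_univ]
    refine mul_le_mul_of_nonneg_right ?_ (by norm_num)
    rw [hD]
    exact_mod_cast card_hom_le (K := K) p
  have hu0 : ∀ p : Nat.Primes, 0 ≤ ∑ u : 𝓞 K →+* ZMod (p : ℕ),
      TT (syE (PP K a) (QQ K b)) ⟨p, u⟩ ^ 2 :=
    fun p => Finset.sum_nonneg fun u _ => sq_nonneg _
  have hs1 := Pool.Agent.Y722.EP.summable_E (B := D * 4)
    (φ := fun p : Nat.Primes => ∑ u : 𝓞 K →+* ZMod (p : ℕ),
      TT (syE (PP K a) (QQ K b)) ⟨p, u⟩ ^ 2) (fun p => by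
      rw [abs_of_nonneg (hu0 p)]; exact hub p) hε
  have hle : ∀ p : Nat.Primes, (∑ u : 𝓞 K →+* ZMod (p : ℕ),
      TT (syE (PP K a) (QQ K b)) ⟨p, u⟩ ^ 2) * ((p : ℕ) : ℝ) ^ (-(1 + ε)) ≤
      D * ((tt f p * tt f p) * ((p : ℕ) : ℝ) ^ (-(1 + ε))) + (if p ∈ S then D * 4 else 0) := by
    intro p
    have hw0 : 0 ≤ ((p : ℕ) : ℝ) ^ (-(1 + ε)) := by positivity
    have hw1 : ((p : ℕ) : ℝ) ^ (-(1 + ε)) ≤ 1 :=
      Real.rpow_le_one_of_one_le_of_nonpos (by exact_mod_cast p.2.one_le) (by linarith)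
    by_cases hp : p ∈ S
    · rw [if_pos hp]
      have q1 : (∑ u : 𝓞 K →+* ZMod (p : ℕ), TT (syE (PP K a) (QQ K b)) ⟨p, u⟩ ^ 2) *
          ((p : ℕ) : ℝ) ^ (-(1 + ε)) ≤ D * 4 := by
        calc _ ≤ (D * 4) * 1 := mul_le_mul (hub p) hw1 hw0 (by positivity)
          _ = D * 4 := mul_one _
      have q2 : 0 ≤ D * ((tt f p * tt f p) * ((p : ℕ) : ℝ) ^ (-(1 + ε))) :=
        mul_nonneg hD0 (mul_nonneg (mul_self_nonneg _) hw0)
      linarith
    · rw [if_neg hp, add_zero, ← mul_assoc]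
      refine mul_le_mul_of_nonneg_right ?_ hw0
      have hp' : ¬ ((p : ℕ) : ℤ) ∣ 6 * (4 * a ^ 3 + 27 * b ^ 2) := by
        intro h3
        apply hp
        rw [hS, Set.Finite.mem_toFinset]
        exact h3
      have q3 : ∀ u : 𝓞 K →+* ZMod (p : ℕ), TT (syE (PP K a) (QQ K b)) ⟨p, u⟩ ^ 2 =
          tt f p * tt f p := by
        intro u
        rw [TT_newform hf ⟨p, u⟩ hp', sq]
      rw [Finset.sum_congr rfl fun u _ => q3 u, Finset.sum_const, nsmul_eq_mul, Finset.card_univ]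
      refine mul_le_mul_of_nonneg_right ?_ (mul_self_nonneg _)
      rw [hD]
      exact_mod_cast card_hom_le (K := K) p
  have hs3 : Summable fun p : Nat.Primes => if p ∈ S then D * 4 else 0 :=
    summable_of_ne_finset_zero (s := S) fun p hp => if_neg hp
  unfold Pool.Agent.H341R2.E at h1 ⊢
  have h4 := hs1.tsum_le_tsum hle ((hs2.mul_left D).add hs3)
  rw [(hs2.mul_left D).tsum_add hs3, tsum_mul_left, tsum_eq_sum (s := S) fun p hp => if_neg hp,
      Finset.sum_congr rfl fun p hp => if_pos hp, Finset.sum_const, nsmul_eq_mul] at h4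
  have h5 := mul_le_mul_of_nonneg_left h1 hD0
  have e5 : LL ε = Real.log (1 / ε) := rfl
  rw [e5]
  refine h4.trans ?_
  have e6 : D * (Real.log (1 / ε) + C) = D * Real.log (1 / ε) + D * C := by ring
  rw [e6] at h5
  have h7 := add_le_add h5 (le_refl ((S.card : ℝ) * (D * 4)))
  refine h7.trans (le_of_eq ?_)
  ring

end

end Pool.Agent.X288.L2
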