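import Pool.Agent.X288.L2.Strict
import Pool.Agent.X288.L2.Curve
import Pool.Agent.TH322.BC.Main

/-! The edge of the L-functions of a modular elliptic curve over number fields. -/

set_option autoImplicit false
open Classical

namespace Pool.Agent.X288.L2

open Complex Filter Topology ComplexConjugate NumberField IsDedekindDomain Asymptotics
  Pool.Agent.W401.Cheb Pool.Agent.W540.BE Pool.Agent.W353.L1 Pool.Agent.W353.NF
open Pool.Agent.W353.TP (HX sysH LL LL_tendsto)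
open Pool.Agent.W353.AB (Sy syE)
open Pool.Agent.H341R2 (lam lam_tendsto sysK)
open Pool.Agent.TH322.BC
open Pool.Agent.TH322.BC.Edge (TwistOver MinimalModels LSeries size HasOrder LimsupLE character
  character_eq orders lim_abs_le size_twist size_base coe_ne)
open Pool.Agent.Y722.EP (IsModular)

theorem P_eq (a : ℤ) (b : ℤ) : ((PP ℚ a : 𝓞 ℚ) : ℚ) = (((1 : 𝓞 ℚ)) : ℚ) ^ 4 * (EC ℚ a b).c₄ := by
  have h1 : ((PP ℚ a : 𝓞 ℚ) : ℚ) = ((-48 * a : ℤ) : ℚ) := by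
    unfold PP
    exact map_intCast (algebraMap (𝓞 ℚ) ℚ) _
  have h2 : ((1 : 𝓞 ℚ) : ℚ) = 1 := map_one (algebraMap (𝓞 ℚ) ℚ)
  rw [h1, EC_c4, h2, one_pow, one_mul]

theorem Q_eq (a : ℤ) (b : ℤ) : ((QQ ℚ b : 𝓞 ℚ) : ℚ) = (((1 : 𝓞 ℚ)) : ℚ) ^ 6 * (EC ℚ a b).c₆ := by
  have h1 : ((QQ ℚ b : 𝓞 ℚ) : ℚ) = ((-864 * b : ℤ) : ℚ) := by
    unfold QQ
    exact map_intCast (algebraMap (𝓞 ℚ) ℚ) _
  have h2 : ((1 : 𝓞 ℚ) : ℚ) = 1 := map_one (algebraMap (𝓞 ℚ) ℚ)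
  rw [h1, EC_c6, h2, one_pow, one_mul]

section
variable {a b : ℤ} (hab : 4 * a ^ 3 + 27 * b ^ 2 ≠ 0)

include hab in
/-- the family of the twists -/
theorem fam_twists {ι : Type} [Fintype ι] (F : ι → Type) [∀ k, Field (F k)]
    [∀ k, NumberField (F k)] [∀ k, Algebra ℚ (F k)]
    (X : ∀ k, TwistOver (EC ℚ a b) (F k)) (U : Subgroup (GK ℚ))
    (hker : ∀ k, ∀ u ∈ U, act ℚ (F k) u = 1 ∧
      ∀ i : F k →ₐ[ℚ] AlgebraicClosure ℚ, ∀ s : AlgebraicClosure ℚ, s ^ 2 = i (X k).D → u s = s)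
    (τ : ι → ℝ) :
    Fam (syE (PP ℚ a) (QQ ℚ b)) U Finset.univ F (fun k => (X k).D) τ
      (fun k => size (X k).V (τ k)) where
  real := syE_real _ _
  ne k _ := (X k).D_ne_zero
  hSD k _ := Pool.Agent.TH322.BC.Edge.syE_D _ _ _
  ker k _ u hu := hker k u hu
  size k _ := (size_twist one_ne_zero (P_eq a b) (Q_eq a b) (PQ_ne hab) (X k) (τ k)).2

theorem finrank_QQ : ((Module.finrank ℚ ℚ : ℕ) : ℝ) = 1 := by
  rw [Module.finrank_self, Nat.cast_one]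

include hab in
theorem sec_one (hmod : IsModular a b) :
    Sec (Pool.Agent.W353.NF.TT (syE (PP ℚ a) (QQ ℚ b))) 1 := by
  have := sec_curve (K := ℚ) hab hmod
  rwa [finrank_QQ] at this

end

end Pool.Agent.X288.L2
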