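import Pool.Agent.X288.L2.Defs
import Pool.Agent.TH322.BC.Mean
import Pool.Agent.W353.L1.Pairs

/-! Mean values over the primes of functions of Frobenius elements with heights. -/

set_option autoImplicit false
open Classical

namespace Pool.Agent.X288.L2

open Complex Filter Topology ComplexConjugate NumberField IsDedekindDomain Asymptotics
  Pool.Agent.W401.Cheb Pool.Agent.W540.BE Pool.Agent.W353.L1 Pool.Agent.W353.NF
open Pool.Agent.H341R2 (lam lam_tendsto sysK)

section
set_option linter.unusedSectionVars false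
variable {K : Type} [Field K] [NumberField K]

/-- real class functions modulo `U`, invariant under inversion -/
structure Cls (U : Subgroup (GK K)) (ψ : GK K → ℝ) : Prop where
  hU : ∀ σ, ∀ u ∈ U, ψ (σ * u) = ψ σ
  hc : ∀ σ ρ, ψ (ρ * σ * ρ⁻¹) = ψ σ
  hi : ∀ σ, ψ σ⁻¹ = ψ σ

theorem Cls.comp {U : Subgroup (GK K)} {ψ : GK K → ℝ} (h : Cls U ψ) (H : ℝ → ℝ) :
    Cls U fun σ => H (ψ σ) where
  hU σ u hu := by rw [h.hU σ u hu]
  hc σ ρ := by rw [h.hc]
  hi σ := by rw [h.hi]

theorem Cls.const_mul {U : Subgroup (GK K)} {ψ : GK K → ℝ} (h : Cls U ψ) (c : ℝ) :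
    Cls U fun σ => c * ψ σ := h.comp fun y => c * y

theorem Cls.mul {U : Subgroup (GK K)} {ψ φ : GK K → ℝ} (h : Cls U ψ) (h' : Cls U φ) :
    Cls U fun σ => ψ σ * φ σ where
  hU σ u hu := by rw [h.hU σ u hu, h'.hU σ u hu]
  hc σ ρ := by rw [h.hc, h'.hc]
  hi σ := by rw [h.hi, h'.hi]

theorem Cls.sum {U : Subgroup (GK K)} {κ : Type*} (S : Finset κ) {ψ : κ → GK K → ℝ}
    (h : ∀ k ∈ S, Cls U (ψ k)) : Cls U fun σ => ∑ k ∈ S, ψ k σ where
  hU σ u hu := Finset.sum_congr rfl fun k hk => (h k hk).hU σ u hu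
  hc σ ρ := Finset.sum_congr rfl fun k hk => (h k hk).hc σ ρ
  hi σ := Finset.sum_congr rfl fun k hk => (h k hk).hi σ

variable {U : Subgroup (GK K)}

/-- a bound for a function on the finite quotient -/
theorem Cls.bdd [Finite (GK K ⧸ U)] {ψ : GK K → ℝ} (h : Cls U ψ) :
    ∃ M : ℝ, 0 < M ∧ ∀ σ, |ψ σ| ≤ M := by
  let _ : Fintype (GK K ⧸ U) := Fintype.ofFinite _
  refine ⟨(∑ q : GK K ⧸ U, |ψ q.out|) + 1, by positivity, fun σ => ?_⟩
  have h1 : ψ σ = ψ (QuotientGroup.mk σ : GK K ⧸ U).out := by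
    have h2 : (QuotientGroup.mk σ : GK K ⧸ U) = QuotientGroup.mk (QuotientGroup.mk σ :
        GK K ⧸ U).out := by
      rw [QuotientGroup.out_eq']
    rw [QuotientGroup.eq] at h2
    have h3 := h.hU σ _ h2
    rw [mul_inv_cancel_left] at h3
    exact h3.symm
  rw [h1]
  have h4 := Finset.single_le_sum (f := fun q : GK K ⧸ U => |ψ q.out|)
    (fun q _ => abs_nonneg _) (Finset.mem_univ (QuotientGroup.mk σ : GK K ⧸ U))
  linarith

theorem hw_self (s : ℝ) : hw s s = if s = 0 then 1 else 1 / 2 := by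
  unfold hw
  rw [if_pos rfl]
  by_cases h : s = 0
  · rw [if_pos h, if_pos (by rw [h]; norm_num)]
    norm_num
  · rw [if_neg h, if_neg (by intro h'; apply h; linarith)]
    norm_num

variable [U.Normal] (hU : IsOpen (U : Set (GK K))) [Finite (GK K ⧸ U)]
  (σ : HeightOneSpectrum (𝓞 K) → GK K) (hσ : ∀ v, IsFrob v (σ v))

omit [Finite (GK K ⧸ U)] in
theorem toCF_R {ψ : GK K → ℝ} (h : Cls U ψ) (s : ℝ) (v : HeightOneSpectrum (𝓞 K)) :
    (toCF U ψ h.hU h.hc h.hi).R s σ v = ψ (σ v) * cz s v := by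
  unfold CF.R
  rw [toCF_mk, Complex.re_ofReal_mul]
  rfl

theorem avC_mul {ψ φ : GK K → ℝ} (h : Cls U ψ) (h' : Cls U φ) :
    (avC U ((toCF U ψ h.hU h.hc h.hi).mul (toCF U φ h'.hU h'.hc h'.hi)).f).re =
      avR U fun q => ψ q.out * φ q.out := by
  have e : ((toCF U ψ h.hU h.hc h.hi).mul (toCF U φ h'.hU h'.hc h'.hi)).f =
      fun q => ((ψ q.out * φ q.out : ℝ) : ℂ) := by
    funext q
    change ((ψ q.out : ℝ) : ℂ) * ((φ q.out : ℝ) : ℂ) = _
    push_cast
    rfl
  rw [e, avC_ofReal, Complex.ofReal_re]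

theorem avC_mul_star {ψ φ : GK K → ℝ} (h : Cls U ψ) (h' : Cls U φ) :
    (avC U ((toCF U ψ h.hU h.hc h.hi).mul (toCF U φ h'.hU h'.hc h'.hi).star).f).re =
      avR U fun q => ψ q.out * φ q.out := by
  have e : ((toCF U ψ h.hU h.hc h.hi).mul (toCF U φ h'.hU h'.hc h'.hi).star).f =
      fun q => ((ψ q.out * φ q.out : ℝ) : ℂ) := by
    funext q
    change ((ψ q.out : ℝ) : ℂ) * conj ((φ q.out : ℝ) : ℂ) = _
    rw [Complex.conj_ofReal]
    push_cast
    rfl
  rw [e, avC_ofReal, Complex.ofReal_re]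

include hU hσ in
/-- products of two terms -/
theorem has_pair {ψ φ : GK K → ℝ} (h : Cls U ψ) (h' : Cls U φ) (s t : ℝ) :
    Has (fun v => (ψ (σ v) * cz s v) * (φ (σ v) * cz t v))
      (hw s t * avR U fun q => ψ q.out * φ q.out) := by
  set A := toCF U ψ h.hU h.hc h.hi with hA
  set B := toCF U φ h'.hU h'.hc h'.hi with hB
  have h1 := ((A.mul B).has hU σ hσ (s + t)).const_mul (1 / 2)
  have h2 := ((A.mul B.star).has hU σ hσ (s - t)).const_mul (1 / 2)
  refine (h1.add h2).congr (fun v => ?_) ?_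
  · rw [← CF.R_mul, hA, hB, toCF_R σ h, toCF_R σ h']
  · rw [hA, hB, avC_mul h h', avC_mul_star h h']
    unfold hw
    have e : (s - t = 0) = (s = t) := by
      rw [sub_eq_zero]
    simp only [e]
    split_ifs <;> ring

theorem has_zero : Has (F := K) (fun _ => 0) 0 := by
  refine (has_one (F := K)).const_mul 0 |>.congr (fun v => by ring) (by ring)

theorem has_sum {κ : Type*} (S : Finset κ) {φ : κ → HeightOneSpectrum (𝓞 K) → ℝ} {m : κ → ℝ}
    (h : ∀ k ∈ S, Has (φ k) (m k)) : Has (fun v => ∑ k ∈ S, φ k v) (∑ k ∈ S, m k) := by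
  induction S using Finset.induction_on with
  | empty =>
    simp only [Finset.sum_empty]
    exact has_zero
  | insert a S ha ih =>
    refine ((h a (Finset.mem_insert_self a S)).add
      (ih fun k hk => h k (Finset.mem_insert_of_mem hk))).congr (fun v => ?_) ?_
    · rw [Finset.sum_insert ha]
    · rw [Finset.sum_insert ha]

include hU hσ in
/-- **The mean value of the square of a combination with heights.** -/
theorem has_sq {κ : Type*} (S : Finset κ) {ψ : κ → GK K → ℝ} (h : ∀ k ∈ S, Cls U (ψ k))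
    (τ : κ → ℝ) (c : κ → ℝ) :
    Has (fun v => (∑ k ∈ S, c k * (ψ k (σ v) * cz (τ k) v)) ^ 2)
      (∑ k ∈ S, ∑ l ∈ S, c k * c l * (hw (τ k) (τ l) * avR U fun q => ψ k q.out * ψ l q.out)) := by
  refine (has_sum S fun k hk => has_sum S fun l hl =>
    ((has_pair hU σ hσ (h k hk) (h l hl) (τ k) (τ l)).const_mul (c k * c l))).congr
    (fun v => ?_) rfl
  rw [sq, Finset.sum_mul_sum]
  refine Finset.sum_congr rfl fun k _ => Finset.sum_congr rfl fun l _ => ?_
  ring

/-- the mean value of `H (ψ)` or of `H (ψ cos θ)` -/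
noncomputable def mH (U : Subgroup (GK K)) (τ : ℝ) (H : ℝ → ℝ) (ψ : GK K → ℝ) : ℝ :=
  avR U fun q => if τ = 0 then H (ψ q.out) else Mf fun x => H (ψ q.out * x)

include hU hσ in
/-- powers -/
theorem pow_mean {ψ : GK K → ℝ} (h : Cls U ψ) {τ : ℝ} (hτ : τ ≠ 0) (n : ℕ) :
    Tendsto (fun ε : ℝ => (EP (nm K) ε fun v => (ψ (σ v) * cz τ v) ^ n) / lam ε) (𝓝[>] 0)
      (𝓝 (avR U fun q => Mf fun x => (ψ q.out * x) ^ n)) := by
  have hn := h.comp fun y => y ^ n
  set A := toCF U (fun σ => ψ σ ^ n) hn.hU hn.hc hn.hi with hA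
  have e0 : ∀ q, (A.f q).re = ψ q.out ^ n := fun q => rfl
  have h1 := mono_lim U hU (fun q => (A.f q).re) (fun _ => (1 : ℂ)) (fun a x => by rw [A.cls])
    (fun a x => rfl) (fun q => by rw [A.herm, Complex.conj_re]) (fun q => by simp)
    (fun q => norm_one) σ hσ hτ n
  have e1 : (avR U fun q => (A.f q).re) * (Mf fun x => x ^ n) =
      avR U fun q => Mf fun x => (ψ q.out * x) ^ n := by
    have e2 : (fun q : GK K ⧸ U => Mf fun x => (ψ q.out * x) ^ n) =
        fun q => (Mf fun x => x ^ n) * (A.f q).re := by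
      funext q
      rw [e0]
      have e3 : (fun x : ℝ => (ψ q.out * x) ^ n) = fun x => ψ q.out ^ n * x ^ n := by
        funext x
        rw [mul_pow]
      rw [e3, Mf_const_mul, mul_comm]
    rw [e2, avR_const_mul, mul_comm]
  rw [e1] at h1
  refine h1.congr fun ε => ?_
  congr 2
  funext v
  rw [one_mul, mul_pow]
  congr 1
  rw [hA, toCF_mk, Complex.ofReal_re]

include hU hσ in
theorem poly_mean {ψ : GK K → ℝ} (h : Cls U ψ) {τ : ℝ} (hτ : τ ≠ 0) (P : Polynomial ℝ) :
    Tendsto (fun ε : ℝ => (EP (nm K) ε fun v => P.eval (ψ (σ v) * cz τ v)) / lam ε) (𝓝[>] 0)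
      (𝓝 (avR U fun q => Mf fun x => P.eval (ψ q.out * x))) := by
  obtain ⟨M, hM0, hM⟩ := h.bdd
  have hb : ∀ v, |ψ (σ v) * cz τ v| ≤ M := by
    intro v
    rw [abs_mul]
    calc |ψ (σ v)| * |cz τ v| ≤ M * 1 :=
          mul_le_mul (hM _) (abs_cz _ _) (abs_nonneg _) hM0.le
      _ = M := mul_one M
  have hbp : ∀ P : Polynomial ℝ, ∃ B : ℝ, ∀ v : HeightOneSpectrum (𝓞 K),
      |P.eval (ψ (σ v) * cz τ v)| ≤ B := by
    intro P
    obtain ⟨B, hB⟩ := (isCompact_Icc (a := -M) (b := M)).exists_bound_of_continuousOn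
      (f := fun y : ℝ => P.eval y) P.continuous.continuousOn
    exact ⟨B, fun v => hB _ (abs_le.1 (hb v))⟩
  induction P using Polynomial.induction_on' with
  | add P Q hP hQ =>
    obtain ⟨B, hB⟩ := hbp P
    obtain ⟨B', hB'⟩ := hbp Q
    have h1 := hP.add hQ
    have h2 : (avR U fun q => Mf fun x => P.eval (ψ q.out * x)) +
        (avR U fun q => Mf fun x => Q.eval (ψ q.out * x)) =
        avR U fun q => Mf fun x => (P + Q).eval (ψ q.out * x) := by
      simp only [Polynomial.eval_add]
      rw [← Pool.Agent.TH322.BC.avR_add]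
      congr 1
      funext q
      exact (Mf_add (φ := fun x => P.eval (ψ q.out * x)) (ψ := fun x => Q.eval (ψ q.out * x))
        (P.continuous.comp (continuous_const.mul continuous_id))
        (Q.continuous.comp (continuous_const.mul continuous_id))).symm
    rw [h2] at h1
    refine h1.congr' ?_
    filter_upwards [self_mem_nhdsWithin] with ε hε
    rw [← add_div, ← EP_add normSys hε hB hB']
    congr 2
    funext v
    rw [Polynomial.eval_add]
  | monomial n a =>
    have h1 := (pow_mean hU σ hσ h hτ n).const_mul a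
    have h2 : a * (avR U fun q => Mf fun x => (ψ q.out * x) ^ n) =
        avR U fun q => Mf fun x => (Polynomial.monomial n a).eval (ψ q.out * x) := by
      simp only [Polynomial.eval_monomial]
      rw [← avR_const_mul]
      congr 1
      funext q
      rw [Mf_const_mul]
    rw [h2] at h1
    refine h1.congr fun ε => ?_
    rw [← mul_div_assoc, ← EP_const_mul]
    congr 2
    funext v
    rw [Polynomial.eval_monomial]

include hU hσ in
/-- **Mean values of continuous functions.** -/
theorem gen_mean {ψ : GK K → ℝ} (h : Cls U ψ) (τ : ℝ) {H : ℝ → ℝ} (hH : Continuous H) :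
    Tendsto (fun ε : ℝ => (EP (nm K) ε fun v => H (ψ (σ v) * cz τ v)) / lam ε) (𝓝[>] 0)
      (𝓝 (mH U τ H ψ)) := by
  unfold mH
  by_cases hτ : τ = 0
  · subst hτ
    simp only [if_true]
    have hcl := h.comp H
    set A := toCF U (fun σ => H (ψ σ)) hcl.hU hcl.hc hcl.hi with hA
    have h1 := A.has hU σ hσ 0
    rw [if_pos rfl] at h1
    have e1 : (avC U A.f).re = avR U fun q => H (ψ q.out) := by
      have e : A.f = fun q => ((H (ψ q.out) : ℝ) : ℂ) := rfl
      rw [e, avC_ofReal, Complex.ofReal_re]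
    rw [e1] at h1
    refine h1.2.congr fun ε => ?_
    congr 2
    funext v
    rw [hA, toCF_R σ hcl]
    have e2 : cz 0 v = 1 := by
      unfold cz zz
      simp
    rw [e2, mul_one, mul_one]
  · simp only [if_neg hτ]
    obtain ⟨M, hM0, hM⟩ := h.bdd
    have hb : ∀ v, |ψ (σ v) * cz τ v| ≤ M := by
      intro v
      rw [abs_mul]
      calc |ψ (σ v)| * |cz τ v| ≤ M * 1 :=
            mul_le_mul (hM _) (abs_cz _ _) (abs_nonneg _) hM0.le
        _ = M := mul_one M
    refine tendsto_of_approx (C := 2) fun η hη => ?_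
    obtain ⟨P, hP⟩ := exists_polynomial_near_of_continuousOn (-M) M H hH.continuousOn η hη
    have hP' : ∀ y ∈ Set.Icc (-M) M, |P.eval y - H y| ≤ η := fun y hy => (hP y hy).le
    refine ⟨_, _, poly_mean hU σ hσ h hτ P, ?_, ?_⟩
    · have h1 : ∀ᶠ ε : ℝ in 𝓝[>] 0, (EP (nm K) ε fun _ => 1) / lam ε < 2 :=
        (EP_one K).eventually_lt_const (by norm_num)
      obtain ⟨B, hB⟩ := (isCompact_Icc (a := -M) (b := M)).exists_bound_of_continuousOn
        (f := H) hH.continuousOn
      obtain ⟨B', hB'⟩ := (isCompact_Icc (a := -M) (b := M)).exists_bound_of_continuousOn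
        (f := fun y : ℝ => P.eval y) P.continuous.continuousOn
      filter_upwards [h1, lam_tendsto.eventually_gt_atTop 0, self_mem_nhdsWithin] with ε h2 h3 h4
      have hε : (0 : ℝ) < ε := h4
      have h5 := EP_add normSys hε (φ := fun v => H (ψ (σ v) * cz τ v)) (B := B)
        (fun v => hB _ (abs_le.1 (hb v))) (B' := B')
        (ψ := fun v => (-1) * P.eval (ψ (σ v) * cz τ v)) (fun v => by
          rw [abs_mul, abs_neg, abs_one, one_mul]
          exact hB' _ (abs_le.1 (hb v)))
      rw [EP_const_mul] at h5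
      have hd : ∀ v, |H (ψ (σ v) * cz τ v) + (-1) * P.eval (ψ (σ v) * cz τ v)| ≤ η := by
        intro v
        have := hP' _ (abs_le.1 (hb v))
        rw [abs_sub_comm] at this
        refine le_trans (le_of_eq ?_) this
        congr 1
        ring
      have h6 : |EP (nm K) ε fun v => H (ψ (σ v) * cz τ v) + (-1) * P.eval (ψ (σ v) * cz τ v)| ≤
          η * EP (nm K) ε fun _ => 1 := by
        rw [abs_le]
        constructor
        · have h7 := EP_le normSys hε (φ := fun v => (-1) *
            (H (ψ (σ v) * cz τ v) + (-1) * P.eval (ψ (σ v) * cz τ v))) (B := η)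
            (fun v => by rw [abs_mul, abs_neg, abs_one, one_mul]; exact hd v) (b := η)
            (fun v => by have := (abs_le.1 (hd v)).1; linarith)
          rw [EP_const_mul] at h7
          linarith
        · exact EP_le normSys hε hd fun v => (le_abs_self _).trans (hd v)
      rw [h5] at h6
      rw [← sub_div, abs_div, abs_of_pos h3, div_le_iff₀ h3]
      have h8 : (EP (nm K) ε fun _ => 1) ≤ 2 * lam ε := by
        rw [div_lt_iff₀ h3] at h2
        exact h2.le
      have e9 : (EP (nm K) ε fun v => H (ψ (σ v) * cz τ v)) -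
          (EP (nm K) ε fun v => P.eval (ψ (σ v) * cz τ v)) =
          (EP (nm K) ε fun v => H (ψ (σ v) * cz τ v)) +
          (-1) * EP (nm K) ε fun v => P.eval (ψ (σ v) * cz τ v) := by ring
      rw [e9]
      refine h6.trans ?_
      calc η * (EP (nm K) ε fun _ => 1) ≤ η * (2 * lam ε) :=
            mul_le_mul_of_nonneg_left h8 hη.le
        _ = 2 * η * lam ε := by ring
    · have h1 : ∀ q : GK K ⧸ U, |(Mf fun x => H (ψ q.out * x)) -
          Mf fun x => P.eval (ψ q.out * x)| ≤ η := by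
        intro q
        refine Mf_close (hH.comp (continuous_const.mul continuous_id))
          (P.continuous.comp (continuous_const.mul continuous_id)) fun x hx => ?_
        have hy : |ψ q.out * x| ≤ M := by
          rw [abs_mul]
          calc |ψ q.out| * |x| ≤ M * 1 :=
                mul_le_mul (hM _) (abs_le.2 hx) (abs_nonneg _) hM0.le
            _ = M := mul_one M
        rw [abs_sub_comm]
        exact hP' _ (abs_le.1 hy)
      have h2 : (avR U fun q => Mf fun x => H (ψ q.out * x)) ≤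
          (avR U fun q => Mf fun x => P.eval (ψ q.out * x)) + η := by
        have := Pool.Agent.TH322.BC.avR_mono_le U (f := fun q => Mf fun x => H (ψ q.out * x))
          (g := fun q => (Mf fun x => P.eval (ψ q.out * x)) + η)
          (fun q => by have := (abs_le.1 (h1 q)).2; linarith)
        rw [Pool.Agent.TH322.BC.avR_add, Pool.Agent.TH322.BC.avR_one] at this
        exact this
      have h3 : (avR U fun q => Mf fun x => P.eval (ψ q.out * x)) ≤
          (avR U fun q => Mf fun x => H (ψ q.out * x)) + η := by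
        have := Pool.Agent.TH322.BC.avR_mono_le U
          (f := fun q => Mf fun x => P.eval (ψ q.out * x))
          (g := fun q => (Mf fun x => H (ψ q.out * x)) + η)
          (fun q => by have := (abs_le.1 (h1 q)).1; linarith)
        rw [Pool.Agent.TH322.BC.avR_add, Pool.Agent.TH322.BC.avR_one] at this
        exact this
      rw [abs_le]
      constructor <;> linarith

end

end Pool.Agent.X288.L2
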