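import Pool.Agent.TH322.BC.Odd
import Pool.Agent.X288.L2.Mean

/-! Mean values of squares of characters of permutation representations and of monomial
representations. -/

set_option autoImplicit false
open Classical

namespace Pool.Agent.X288.L2

open Complex Filter Topology ComplexConjugate NumberField IsDedekindDomain
  Pool.Agent.W401.Cheb Pool.Agent.W540.BE Pool.Agent.W353.L1 Pool.Agent.W353.NF
open Pool.Agent.TH322.BC

section
variable {K F : Type} [Field K] [NumberField K] [Field F] [NumberField F] [Algebra K F]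

/-- the mean number of fixed embeddings -/
theorem mean_fix : avR (act K F).ker (fun q => (fixn K F q.out : ℝ)) = 1 := by
  have hfinV : Finite (GK K ⧸ (act K F).ker) :=
    Subgroup.quotient_finite_of_isOpen _ (ker_act_open K F)
  have g1 := avR_ker (act K F) fun π => ((Nat.card {y // π y = y} : ℕ) : ℝ)
  have g2 : (fun q : GK K ⧸ (act K F).ker => (fixn K F q.out : ℝ)) = fun q =>
      ((Nat.card {y // act K F q.out y = y} : ℕ) : ℝ) := rfl
  rw [g2, g1]
  have g3 := burnside (G := (act K F).range) (Y := F →ₐ[K] AlgebraicClosure K)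
    (act K F).range.subtype (fun i j => by
      obtain ⟨σ, hσ⟩ := act_trans K F i j
      exact ⟨⟨act K F σ, ⟨σ, rfl⟩⟩, hσ⟩)
  have g4 : ∑ᶠ (h : (act K F).range), ((Nat.card {y // h.1 y = y} : ℕ) : ℝ) =
      Nat.card (act K F).range := g3
  rw [g4]
  exact inv_mul_cancel₀ (by exact_mod_cast Nat.card_pos.ne')

/-- the action of the permutations on the pairs of different elements -/
def offAct (Y : Type*) : Equiv.Perm Y →* Equiv.Perm {z : Y × Y // z.1 ≠ z.2} where
  toFun π :=
    { toFun := fun z => ⟨(π z.1.1, π z.1.2), fun h => z.2 (π.injective h)⟩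
      invFun := fun z => ⟨(π.symm z.1.1, π.symm z.1.2), fun h => z.2 (π.symm.injective h)⟩
      left_inv := fun z => by simp
      right_inv := fun z => by simp }
  map_one' := rfl
  map_mul' _ _ := rfl

theorem off_card {Y : Type*} [Finite Y] (π : Equiv.Perm Y) :
    (Nat.card {y // π y = y}) * (Nat.card {y // π y = y}) =
      Nat.card {y // π y = y} + Nat.card {z // offAct Y π z = z} := by
  rw [← Nat.card_prod, ← Nat.card_sum]
  refine Nat.card_congr
    { toFun := fun p => if h : p.1.1 = p.2.1 then Sum.inl p.1 else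
        Sum.inr ⟨⟨(p.1.1, p.2.1), h⟩, Subtype.ext (Prod.ext p.1.2 p.2.2)⟩
      invFun := fun s => match s with
        | Sum.inl y => (y, y)
        | Sum.inr z => (⟨z.1.1.1, congrArg (fun w => w.1.1) z.2⟩,
            ⟨z.1.1.2, congrArg (fun w => w.1.2) z.2⟩)
      left_inv := ?_
      right_inv := ?_ }
  · rintro ⟨⟨x, hx⟩, ⟨y, hy⟩⟩
    by_cases h : x = y
    · subst h
      simp
    · simp [h]
  · rintro (⟨y, hy⟩ | ⟨⟨⟨x, y⟩, hxy⟩, hz⟩)
    · simp
    · have : x ≠ y := hxy
      simp [this]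

/-- the mean of the square of the number of fixed embeddings for a doubly transitive action -/
theorem mean_fix_sq (h2 : TwoTrans K F) (hn : 2 ≤ Module.finrank K F) :
    avR (act K F).ker (fun q => (fixn K F q.out : ℝ) ^ 2) = 2 := by
  have hfinV : Finite (GK K ⧸ (act K F).ker) :=
    Subgroup.quotient_finite_of_isOpen _ (ker_act_open K F)
  set Y := (F →ₐ[K] AlgebraicClosure K) with hY
  have hcard : Fintype.card Y = Module.finrank K F := AlgHom.card K F (AlgebraicClosure K)
  have hnt : ∃ i j : Y, i ≠ j := by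
    have : 1 < Fintype.card Y := by omega
    obtain ⟨i, j, hij⟩ := Fintype.one_lt_card_iff.1 this
    exact ⟨i, j, hij⟩
  obtain ⟨i₀, j₀, hij₀⟩ := hnt
  have g0 : (fun q : GK K ⧸ (act K F).ker => (fixn K F q.out : ℝ) ^ 2) = fun q =>
      (fixn K F q.out : ℝ) + ((Nat.card {z // offAct Y (act K F q.out) z = z} : ℕ) : ℝ) := by
    funext q
    have h3 := off_card (Y := Y) (act K F q.out)
    have h4 : fixn K F q.out = Nat.card {y : Y // act K F q.out y = y} := rfl
    rw [h4, sq]
    exact_mod_cast h3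
  rw [g0, avR_add, mean_fix]
  have g1 := avR_ker (act K F) fun π => ((Nat.card {z // offAct Y π z = z} : ℕ) : ℝ)
  rw [g1]
  have : Nonempty {z : Y × Y // z.1 ≠ z.2} := ⟨⟨(i₀, j₀), hij₀⟩⟩
  have g3 := burnside (G := (act K F).range) (Y := {z : Y × Y // z.1 ≠ z.2})
    ((offAct Y).comp (act K F).range.subtype) (fun z w => by
      obtain ⟨σ, hσ, hσ'⟩ := h2 z.1.1 z.1.2 w.1.1 w.1.2 z.2 w.2
      exact ⟨⟨act K F σ, ⟨σ, rfl⟩⟩, Subtype.ext (Prod.ext hσ hσ')⟩)
  have g4 : ∑ᶠ (h : (act K F).range), ((Nat.card {z // offAct Y h.1 z = z} : ℕ) : ℝ) =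
      Nat.card (act K F).range := g3
  rw [g4, inv_mul_cancel₀ (by exact_mod_cast Nat.card_pos.ne')]
  norm_num

theorem exists_sep {D : F} (hD : D ≠ 0) (h : IrrTwist K D) {i j : F →ₐ[K] AlgebraicClosure K}
    (hij : i ≠ j) : ∃ g : GK K, act K F g i = i ∧ act K F g j = j ∧
      ((sg D g i : ℤˣ) : ℤ) * ((sg D g j : ℤˣ) : ℤ) = -1 := by
  obtain ⟨s, hs⟩ := exists_sqrt i D
  obtain ⟨t, ht⟩ := exists_sqrt j D
  have h1 : s * t ∉ (i.fieldRange ⊔ j.fieldRange : IntermediateField K (AlgebraicClosure K)) :=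
    fun hst => h i j hij ⟨s * t, hst, by rw [mul_pow, hs, ht]⟩
  have h2 : ∃ g : GK K, act K F g i = i ∧ act K F g j = j ∧ g (s * t) ≠ s * t := by
    by_contra hcon
    push Not at hcon
    apply h1
    rw [← InfiniteGalois.fixedField_fixingSubgroup
      (i.fieldRange ⊔ j.fieldRange : IntermediateField K (AlgebraicClosure K)),
      IntermediateField.mem_fixedField_iff]
    intro g hg
    rw [IntermediateField.mem_fixingSubgroup_iff] at hg
    refine hcon g (AlgHom.ext fun y => ?_) (AlgHom.ext fun y => ?_)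
    · exact hg _ ((le_sup_left : i.fieldRange ≤ _) ⟨y, rfl⟩)
    · exact hg _ ((le_sup_right : j.fieldRange ≤ _) ⟨y, rfl⟩)
  obtain ⟨g, hgi, hgj, hne⟩ := h2
  refine ⟨g, hgi, hgj, ?_⟩
  have hst0 : s * t ≠ 0 := by
    intro h0
    rcases mul_eq_zero.1 h0 with h' | h'
    · rw [h', zero_pow two_ne_zero] at hs
      exact hD ((map_eq_zero i).1 hs.symm)
    · rw [h', zero_pow two_ne_zero] at ht
      exact hD ((map_eq_zero j).1 ht.symm)
  have h3 : g (s * t) = ((((sg D g i : ℤˣ) : ℤ) * ((sg D g j : ℤˣ) : ℤ) : ℤ) :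
      AlgebraicClosure K) * (s * t) := by
    rw [map_mul, sg_spec hgi hs, sg_spec hgj ht]
    push_cast
    ring
  rcases Int.units_eq_one_or (sg D g i) with h4 | h4 <;>
    rcases Int.units_eq_one_or (sg D g j) with h5 | h5 <;> rw [h4, h5] at h3 ⊢
  · exact absurd (by rw [h3]; simp) hne
  · simp
  · simp
  · exact absurd (by rw [h3]; simp) hne

theorem sg_mul {D : F} (hD : D ≠ 0) {g h : GK K} {i : F →ₐ[K] AlgebraicClosure K}
    (hg : act K F g i = i) (hh : act K F h i = i) : sg D (g * h) i = sg D g i * sg D h i := by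
  obtain ⟨s, hs⟩ := exists_sqrt i D
  refine sg_unique hD (by rw [map_mul, Equiv.Perm.mul_apply, hh, hg]) hs ?_
  change g (h s) = _
  rw [sg_spec hh hs, map_mul, map_intCast, sg_spec hg hs]
  push_cast
  ring

/-- one product of signs -/
noncomputable def fij (D : F) (i j : F →ₐ[K] AlgebraicClosure K) (g : GK K) : ℝ :=
  if act K F g i = i ∧ act K F g j = j then
    (((sg D g i : ℤˣ) : ℤ) : ℝ) * (((sg D g j : ℤˣ) : ℤ) : ℝ) else 0

theorem fij_mul {D : F} (hD : D ≠ 0) {i j : F →ₐ[K] AlgebraicClosure K} {h : GK K}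
    (hi : act K F h i = i) (hj : act K F h j = j) (g : GK K) :
    fij D i j (g * h) = fij D i j g *
      ((((sg D h i : ℤˣ) : ℤ) : ℝ) * (((sg D h j : ℤˣ) : ℤ) : ℝ)) := by
  unfold fij
  have e1 : (act K F (g * h) i = i ∧ act K F (g * h) j = j) ↔
      (act K F g i = i ∧ act K F g j = j) := by
    rw [map_mul, Equiv.Perm.mul_apply, Equiv.Perm.mul_apply, hi, hj]
  by_cases h1 : act K F g i = i ∧ act K F g j = j
  · rw [if_pos (e1.2 h1), if_pos h1, sg_mul hD h1.1 hi, sg_mul hD h1.2 hj]
    push_cast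
    ring
  · rw [if_neg (fun h' => h1 (e1.1 h')), if_neg h1, zero_mul]

/-- **The mean of the square of the character of an irreducible monomial representation.** -/
theorem mean_chi_sq {D : F} (hD : D ≠ 0) (h : IrrTwist K D) :
    avR (kerD K D) (fun q => (chi K D q.out : ℝ) ^ 2) = 1 := by
  have hfinU : Finite (GK K ⧸ kerD K D) := Subgroup.quotient_finite_of_isOpen _ (kerD_open D)
  have hfinV : Finite (GK K ⧸ (act K F).ker) :=
    Subgroup.quotient_finite_of_isOpen _ (ker_act_open K F)
  have hinv : ∀ i j : F →ₐ[K] AlgebraicClosure K, ∀ g, ∀ u ∈ kerD K D,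
      fij D i j (g * u) = fij D i j g := by
    intro i j g u hu
    have hi : act K F u i = i := by rw [hu.1]; rfl
    have hj : act K F u j = j := by rw [hu.1]; rfl
    obtain ⟨s, hs⟩ := exists_sqrt i D
    obtain ⟨t, ht⟩ := exists_sqrt j D
    have h1 : sg D u i = 1 := sg_unique hD hi hs (by rw [hu.2 i s hs]; simp)
    have h2 : sg D u j = 1 := sg_unique hD hj ht (by rw [hu.2 j t ht]; simp)
    rw [fij_mul hD hi hj, h1, h2]
    simp
  have e0 : ∀ g : GK K, (chi K D g : ℝ) ^ 2 = ∑ i : F →ₐ[K] AlgebraicClosure K,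
      ∑ j : F →ₐ[K] AlgebraicClosure K, fij D i j g := by
    intro g
    have h1 : (chi K D g : ℝ) = ∑ i : F →ₐ[K] AlgebraicClosure K,
        if act K F g i = i then (((sg D g i : ℤˣ) : ℤ) : ℝ) else 0 := by
      unfold chi
      push_cast
      rw [Finset.sum_filter]
    rw [h1, sq, Finset.sum_mul_sum]
    refine Finset.sum_congr rfl fun i _ => Finset.sum_congr rfl fun j _ => ?_
    unfold fij
    by_cases hi : act K F g i = i <;> by_cases hj : act K F g j = j <;> simp [hi, hj]
  have e1 : (fun q : GK K ⧸ kerD K D => (chi K D q.out : ℝ) ^ 2) = fun q =>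
      ∑ i : F →ₐ[K] AlgebraicClosure K, ∑ j : F →ₐ[K] AlgebraicClosure K, fij D i j q.out :=
    funext fun q => e0 _
  rw [e1, avR_sum]
  have e2 : ∀ i : F →ₐ[K] AlgebraicClosure K, avR (kerD K D) (fun q =>
      ∑ j : F →ₐ[K] AlgebraicClosure K, fij D i j q.out) =
      avR (kerD K D) (fun q => fij D i i q.out) := by
    intro i
    rw [avR_sum, Finset.sum_eq_single i]
    · intro j _ hji
      obtain ⟨g, hgi, hgj, hg⟩ := exists_sep hD h (i := i) (j := j) (fun h' => hji h'.symm)
      have h1 := avR_mul (kerD K D) (f := fij D i j) (hinv i j) g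
      have h2 : (fun q : GK K ⧸ kerD K D => fij D i j (q.out * g)) =
          fun q => (-1) * fij D i j q.out := by
        funext q
        rw [fij_mul hD hgi hgj]
        have : (((sg D g i : ℤˣ) : ℤ) : ℝ) * (((sg D g j : ℤˣ) : ℤ) : ℝ) = -1 := by
          exact_mod_cast hg
        rw [this]
        ring
      rw [h2, avR_const_mul] at h1
      linarith
    · intro h'
      exact absurd (Finset.mem_univ i) h'
  rw [Finset.sum_congr rfl fun i _ => e2 i, ← avR_sum]
  have e3 : (fun q : GK K ⧸ kerD K D => ∑ i : F →ₐ[K] AlgebraicClosure K, fij D i i q.out) =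
      fun q => (fixn K F q.out : ℝ) := by
    funext q
    have h1 : (fixn K F q.out : ℝ) = ∑ i : F →ₐ[K] AlgebraicClosure K,
        if act K F q.out i = i then (1 : ℝ) else 0 := by
      unfold fixn
      rw [Nat.card_eq_fintype_card, Fintype.card_subtype, Finset.sum_boole]
    rw [h1]
    refine Finset.sum_congr rfl fun i _ => ?_
    unfold fij
    rcases Int.units_eq_one_or (sg D q.out i) with h' | h' <;> simp [h']
  rw [e3]
  have hm2 := avR_mono (K := K) (kerD_le D) (f := fun g => (fixn K F g : ℝ))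
    (fun g u hu => by
      have : fixn K F (g * u) = fixn K F g := fixn_mul_ker K F g u hu
      rw [this])
  rw [hm2, mean_fix]

theorem act_one (i : F →ₐ[K] AlgebraicClosure K) : act K F (1 : GK K) i = i := by
  rw [map_one]
  rfl

theorem chi_at_one (D : F) : chi K D (1 : GK K) = Module.finrank K F := by
  unfold chi
  rw [Finset.filter_true_of_mem fun i _ => act_one i]
  have h3 : ∀ i : F →ₐ[K] AlgebraicClosure K, sg D (1 : GK K) i = 1 := by
    intro i
    unfold sg
    rw [if_pos]
    intro s _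
    rfl
  rw [Finset.sum_congr rfl fun i _ => by rw [h3 i]]
  simp [AlgHom.card K F (AlgebraicClosure K)]

theorem one_ker (u : GK K) (i : F →ₐ[K] AlgebraicClosure K) (s : AlgebraicClosure K)
    (hs : s ^ 2 = i ((1 : 𝓞 F) : F)) : u s = s := by
  have h1 : ((1 : 𝓞 F) : F) = 1 := map_one (algebraMap (𝓞 F) F)
  rw [h1, map_one] at hs
  have hs1 : s ^ 2 = 1 ^ 2 := by rw [hs, one_pow]
  rcases sq_eq_sq_iff_eq_or_eq_neg.1 hs1 with h | h
  · rw [h, map_one]
  · rw [h, map_neg, map_one]

theorem chi_one' (g : GK K) : chi K (((1 : 𝓞 F) : F)) g = fixn K F g := by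
  have h1 : ((1 : 𝓞 F) : F) = 1 := map_one (algebraMap (𝓞 F) F)
  rw [h1, chi_one]

theorem fixn_one : fixn K F (1 : GK K) = Module.finrank K F := by
  unfold fixn
  rw [Nat.card_congr (Equiv.subtypeUnivEquiv fun i => act_one i), Nat.card_eq_fintype_card]
  exact AlgHom.card K F (AlgebraicClosure K)

theorem fixn_self (g : GK K) : fixn K K g = 1 := by
  unfold fixn
  have h1 : ∀ i : K →ₐ[K] AlgebraicClosure K, act K K g i = i := fun i =>
    Subsingleton.elim _ _
  rw [Nat.card_congr (Equiv.subtypeUnivEquiv h1), Nat.card_eq_fintype_card,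
    AlgHom.card K K (AlgebraicClosure K), Module.finrank_self]

end

end Pool.Agent.X288.L2
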