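import Pool.Agent.X288.L2.Edge
import Pool.Agent.X288.L2.Means

/-! The edge of the L-functions of a modular elliptic curve over number fields: the theorems. -/

set_option autoImplicit false
open Classical

namespace Pool.Agent.X288.L2

open Complex Filter Topology ComplexConjugate NumberField IsDedekindDomain Asymptotics
  Pool.Agent.W401.Cheb Pool.Agent.W540.BE Pool.Agent.W353.L1 Pool.Agent.W353.NF
open Pool.Agent.W353.TP (HX sysH LL LL_tendsto)
open Pool.Agent.W353.AB (Sy syE)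
open Pool.Agent.H341R2 (lam lam_tendsto sysK)
open Pool.Agent.TH322.BC
open Pool.Agent.TH322.BC.Edge (TwistOver MinimalModels LSeries size HasOrder LimsupLE character
  character_eq orders lim_abs_le size_twist size_base coe_ne)
open Pool.Agent.Y722.EP (IsModular)

theorem order_zero {x : ℝ → ℝ} {m : ℤ} {B : ℝ} (hB : B < 1)
    (h : ∀ η : ℝ, 0 < η → ∀ᶠ ε : ℝ in 𝓝[>] 0, |x ε| ≤ B + η)
    (hx : Tendsto x (𝓝[>] 0) (𝓝 (-(m : ℝ)))) : m = 0 := by
  have h1 := lim_abs_le hx h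
  rw [abs_neg] at h1
  have h2 : |((m : ℤ) : ℝ)| < 1 := by linarith
  have h3 : |m| < 1 := by exact_mod_cast h2
  rwa [Int.abs_lt_one_iff] at h3

section
variable {a b : ℤ} (hab : 4 * a ^ 3 + 27 * b ^ 2 ≠ 0) (hmod : IsModular a b)

include hab hmod in
/-- several twists at several heights -/
theorem relations_sq {ι : Type} [Fintype ι] (F : ι → Type) [∀ k, Field (F k)]
    [∀ k, NumberField (F k)] [∀ k, Algebra ℚ (F k)]
    (X : ∀ k, TwistOver (EC ℚ a b) (F k)) (U : Subgroup (GK ℚ)) [U.Normal]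
    (hU : IsOpen (U : Set (GK ℚ)))
    (hker : ∀ k, ∀ u ∈ U, act ℚ (F k) u = 1 ∧
      ∀ i : F k →ₐ[ℚ] AlgebraicClosure ℚ, ∀ s : AlgebraicClosure ℚ, s ^ 2 = i (X k).D → u s = s)
    (τ c : ι → ℝ) :
    (∀ η : ℝ, 0 < η → ∀ᶠ ε : ℝ in 𝓝[>] 0, (∑ k, c k * size (X k).V (τ k) ε) ^ 2 ≤
      (∑ k, ∑ l, c k * c l * (hw (τ k) (τ l) *
        ((Nat.card (GK ℚ ⧸ U) : ℝ)⁻¹ * ∑ᶠ q : GK ℚ ⧸ U,
          (character (K := ℚ) ((X k).D : F k) q.out : ℝ) *
            (character (K := ℚ) ((X l).D : F l) q.out : ℝ)))) + η) ∧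
    ∀ m : ι → ℤ, (∀ k, HasOrder (X k).V (τ k) (m k)) → (∑ k, c k * m k) ^ 2 ≤
      ∑ k, ∑ l, c k * c l * (hw (τ k) (τ l) *
        ((Nat.card (GK ℚ ⧸ U) : ℝ)⁻¹ * ∑ᶠ q : GK ℚ ⧸ U,
          (character (K := ℚ) ((X k).D : F k) q.out : ℝ) *
            (character (K := ℚ) ((X l).D : F l) q.out : ℝ))) := by
  have hfin : Finite (GK ℚ ⧸ U) := Subgroup.quotient_finite_of_isOpen _ hU
  have hfam := fam_twists hab F X U hker τ
  have hg : (∑ k, ∑ l, c k * c l * (hw (τ k) (τ l) *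
        ((Nat.card (GK ℚ ⧸ U) : ℝ)⁻¹ * ∑ᶠ q : GK ℚ ⧸ U,
          (character (K := ℚ) ((X k).D : F k) q.out : ℝ) *
            (character (K := ℚ) ((X l).D : F l) q.out : ℝ)))) =
      gram U Finset.univ (fun k => (X k).D) τ c := by
    unfold gram avR
    simp only [character_eq (coe_ne (X _).D_ne_zero)]
  rw [hg]
  have h1 : ∀ η : ℝ, 0 < η → ∀ᶠ ε : ℝ in 𝓝[>] 0, (∑ k, c k * size (X k).V (τ k) ε) ^ 2 ≤
      gram U Finset.univ (fun k => (X k).D) τ c + η := by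
    intro η hη
    have := (hfam.ineq hU zero_le_one (sec_one hab hmod) c hη).2
    rwa [one_mul] at this
  refine ⟨h1, fun m hm => ?_⟩
  have h3 : Tendsto (fun ε => ∑ k, c k * size (X k).V (τ k) ε) (𝓝[>] 0)
      (𝓝 (∑ k, c k * (-(m k : ℝ)))) :=
    tendsto_finsetSum _ fun k _ =>
      (orders (size_twist one_ne_zero (P_eq a b) (Q_eq a b) (PQ_ne hab) (X k) (τ k)).1
        (hm k)).const_mul (c k)
  have h4 := h3.pow 2
  have e : (∑ k, c k * (-(m k : ℝ))) ^ 2 = (∑ k, c k * (m k : ℝ)) ^ 2 := by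
    have : ∑ k, c k * (-(m k : ℝ)) = -∑ k, c k * (m k : ℝ) := by
      rw [← Finset.sum_neg_distrib]
      exact Finset.sum_congr rfl fun k _ => by ring
    rw [this, neg_sq]
  rw [e] at h4
  refine le_of_forall_pos_le_add fun η hη => ?_
  exact le_of_tendsto h4 (h1 η hη)

include hab hmod in
/-- **Irreducible monomial twists.** -/
theorem irr_twist {F : Type} [Field F] [NumberField F] [Algebra ℚ F]
    (X : TwistOver (EC ℚ a b) F) (hX : IrrTwist ℚ (X.D : F)) (τ : ℝ)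
    (h : τ ≠ 0 ∨ 3 ≤ Module.finrank ℚ F) :
    (∃ B : ℝ, B < 1 ∧ LimsupLE (size X.V τ) B) ∧ ∀ m : ℤ, HasOrder X.V τ m → m = 0 := by
  have hDne : (X.D : F) ≠ 0 := coe_ne X.D_ne_zero
  have hU := kerD_open (K := ℚ) (X.D : F)
  have hfin : Finite (GK ℚ ⧸ kerD ℚ (X.D : F)) := Subgroup.quotient_finite_of_isOpen _ hU
  have hfam := fam_twists hab (fun _ : Unit => F) (fun _ => X) (kerD ℚ (X.D : F))
    (fun _ u hu => hu) (fun _ => τ)
  have hmean := mean_chi_sq hDne hX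
  have hone : (chi ℚ (X.D : F) 1 : ℝ) = Module.finrank ℚ F := by
    exact_mod_cast chi_at_one (K := ℚ) (X.D : F)
  have key : ∃ B : ℝ, B < 1 ∧ LimsupLE (size X.V τ) B := by
    have h3 : hw τ τ * (avR (kerD ℚ (X.D : F)) fun q => (∑ k ∈ (Finset.univ : Finset Unit),
        (1 : ℝ) * (chi ℚ (X.D : F) q.out : ℝ)) ^ 2) = hw τ τ := by
      simp only [Finset.univ_unique, Finset.sum_singleton, one_mul]
      rw [hmean, mul_one]
    obtain ⟨B, hB, hlim⟩ := hfam.strict hU (sec_one hab hmod) (abs_TT_le a b) (fun _ => 1)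
      (by
        rw [h3, hw_self]
        split_ifs <;> norm_num) (by
        rcases h with h | h
        · left
          rw [h3, hw_self, if_neg h]
          norm_num
        · right
          refine ⟨1, ?_⟩
          simp only [Finset.univ_unique, Finset.sum_singleton, one_mul]
          rw [hone, abs_of_nonneg (Nat.cast_nonneg _)]
          have : (3 : ℝ) ≤ (Module.finrank ℚ F : ℝ) := by exact_mod_cast h
          linarith)
    refine ⟨B, hB, fun η hη => (hlim η hη).mono fun ε hε => ?_⟩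
    simpa using hε
  refine ⟨key, fun m hm => ?_⟩
  obtain ⟨B, hB, hlim⟩ := key
  exact order_zero hB hlim
    (orders (size_twist one_ne_zero (P_eq a b) (Q_eq a b) (PQ_ne hab) X τ).1 hm)

include hab hmod in
/-- **Doubly transitive extensions**, heights different from zero. -/
theorem two_trans_ne {F : Type} [Field F] [NumberField F] [Algebra ℚ F]
    (h2 : TwoTrans ℚ F) (hn : 3 ≤ Module.finrank ℚ F)
    {V : HeightOneSpectrum (𝓞 F) → WeierstrassCurve (𝓞 F)}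
    (hV : MinimalModels ((EC ℚ a b).map (algebraMap ℚ F)) V) {τ : ℝ} (hτ : τ ≠ 0) :
    (∃ B : ℝ, B < 1 ∧ LimsupLE (size V τ) B) ∧ ∀ m : ℤ, HasOrder V τ m → m = 0 := by
  have hU := ker_act_open ℚ F
  have hfin : Finite (GK ℚ ⧸ (act ℚ F).ker) := Subgroup.quotient_finite_of_isOpen _ hU
  have hsz := size_base one_ne_zero (P_eq a b) (Q_eq a b) (PQ_ne hab) hV τ
  have hfam : Fam (syE (PP ℚ a) (QQ ℚ b)) (act ℚ F).ker (Finset.univ : Finset Unit)
      (fun _ => F) (fun _ => (1 : 𝓞 F)) (fun _ => τ) (fun _ => size V τ) :=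
    { real := syE_real _ _
      ne := fun _ _ => one_ne_zero
      hSD := fun _ _ => Pool.Agent.TH322.BC.Edge.syE_D _ _ _
      ker := fun _ _ u hu => ⟨(MonoidHom.mem_ker).1 hu, fun i s hs => one_ker u i s hs⟩
      size := fun _ _ => hsz.2 }
  have hmean := mean_fix_sq (K := ℚ) h2 (by omega)
  have key : ∃ B : ℝ, B < 1 ∧ LimsupLE (size V τ) B := by
    have h3 : hw τ τ * (avR (act ℚ F).ker fun q => (∑ k ∈ (Finset.univ : Finset Unit),
        (1 : ℝ) * (chi ℚ (((1 : 𝓞 F) : F)) q.out : ℝ)) ^ 2) = 1 := by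
      simp only [Finset.univ_unique, Finset.sum_singleton, one_mul, chi_one', Int.cast_natCast]
      rw [hmean, hw_self, if_neg hτ]
      norm_num
    obtain ⟨B, hB, hlim⟩ := hfam.strict hU (sec_one hab hmod) (abs_TT_le a b) (fun _ => 1)
      (by rw [h3]) (by
        right
        refine ⟨1, ?_⟩
        simp only [Finset.univ_unique, Finset.sum_singleton, one_mul, chi_one', fixn_one,
          Int.cast_natCast]
        rw [abs_of_nonneg (Nat.cast_nonneg _)]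
        have : (3 : ℝ) ≤ (Module.finrank ℚ F : ℝ) := by exact_mod_cast hn
        linarith)
    refine ⟨B, hB, fun η hη => (hlim η hη).mono fun ε hε => ?_⟩
    simpa using hε
  refine ⟨key, fun m hm => ?_⟩
  obtain ⟨B, hB, hlim⟩ := key
  exact order_zero hB hlim (orders hsz.1 hm)

include hab hmod in
/-- **Doubly transitive extensions**, all heights. -/
theorem two_trans {F : Type} [Field F] [NumberField F] [Algebra ℚ F]
    (h2 : TwoTrans ℚ F) (hn : 4 ≤ Module.finrank ℚ F)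
    {V₀ : HeightOneSpectrum (𝓞 ℚ) → WeierstrassCurve (𝓞 ℚ)}
    (hV₀ : MinimalModels (EC ℚ a b) V₀)
    {V : HeightOneSpectrum (𝓞 F) → WeierstrassCurve (𝓞 F)}
    (hV : MinimalModels ((EC ℚ a b).map (algebraMap ℚ F)) V) (τ : ℝ) :
    (∃ B : ℝ, B < 1 ∧ LimsupLE (fun ε => size V τ ε - size V₀ τ ε) B) ∧
    ∀ m₀ m : ℤ, HasOrder V₀ τ m₀ → HasOrder V τ m → m = m₀ := by
  have hU := ker_act_open ℚ F
  have hfin : Finite (GK ℚ ⧸ (act ℚ F).ker) := Subgroup.quotient_finite_of_isOpen _ hU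
  have hV₀' : MinimalModels ((EC ℚ a b).map (algebraMap ℚ ℚ)) V₀ := by
    have : (EC ℚ a b).map (algebraMap ℚ ℚ) = EC ℚ a b := (EC ℚ a b).map_id
    rwa [this]
  have s0 := size_base (F := ℚ) one_ne_zero (P_eq a b) (Q_eq a b) (PQ_ne hab) hV₀' τ
  have s1 := size_base one_ne_zero (P_eq a b) (Q_eq a b) (PQ_ne hab) hV τ
  choose σ hσ using exists_isFrob (F := ℚ)
  have z1 : SzH (Pool.Agent.W353.NF.TT (syE (PP ℚ a) (QQ ℚ b)))
      (fun v => (chi ℚ (((1 : 𝓞 F) : F)) (σ v) : ℝ) * cz τ v) (size V τ) :=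
    size_chi _ (syE_real _ _) one_ne_zero (Pool.Agent.TH322.BC.Edge.syE_D _ _ _) σ hσ s1.2
  have z0 : SzH (Pool.Agent.W353.NF.TT (syE (PP ℚ a) (QQ ℚ b)))
      (fun v => (chi ℚ (((1 : 𝓞 ℚ) : ℚ)) (σ v) : ℝ) * cz τ v) (size V₀ τ) :=
    size_chi _ (syE_real _ _) one_ne_zero (Pool.Agent.TH322.BC.Edge.syE_D _ _ _) σ hσ s0.2
  obtain ⟨M₁, hM₁, hM₁'⟩ : ∃ M : ℝ, 0 ≤ M ∧ ∀ g : GK ℚ, |(chi ℚ (((1 : 𝓞 F) : F)) g : ℝ)| ≤ M :=
    ⟨_, Nat.cast_nonneg _, fun g => abs_chi_le _ _⟩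
  obtain ⟨M₀, hM₀, hM₀'⟩ : ∃ M : ℝ, 0 ≤ M ∧ ∀ g : GK ℚ, |(chi ℚ (((1 : 𝓞 ℚ) : ℚ)) g : ℝ)| ≤ M :=
    ⟨_, Nat.cast_nonneg _, fun g => abs_chi_le _ _⟩
  have hb1 : ∀ v, |(chi ℚ (((1 : 𝓞 F) : F)) (σ v) : ℝ) * cz τ v| ≤ M₁ := by
    intro v
    rw [abs_mul]
    calc _ ≤ M₁ * 1 := mul_le_mul (hM₁' _) (abs_cz _ _) (abs_nonneg _) hM₁
      _ = _ := mul_one _
  have hb0 : ∀ v, |(-1 : ℝ) * ((chi ℚ (((1 : 𝓞 ℚ) : ℚ)) (σ v) : ℝ) * cz τ v)| ≤ M₀ := by
    intro v
    rw [abs_mul, abs_mul, abs_neg, abs_one, one_mul]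
    calc _ ≤ M₀ * 1 := mul_le_mul (hM₀' _) (abs_cz _ _) (abs_nonneg _) hM₀
      _ = _ := mul_one _
  have z := (z1.add (z0.const_mul (-1)) (abs_TT_le a b) hb1 hb0).congr
    (Ψ' := fun v => ((fixn ℚ F (σ v) : ℝ) - 1) * cz τ v)
    (X' := fun ε => size V τ ε - size V₀ τ ε) (fun v => by
      rw [chi_one', chi_one', fixn_self]
      push_cast
      ring) (fun ε => by ring)
  have hcl : Cls (act ℚ F).ker (fun g => (fixn ℚ F g : ℝ) - 1) :=
    ⟨fun g u hu => by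
      have : fixn ℚ F (g * u) = fixn ℚ F g := fixn_mul_ker ℚ F g u hu
      rw [this], fun g ρ => by rw [fixn_conj], fun g => by rw [fixn_inv]⟩
  have hmean : (avR (act ℚ F).ker fun q => ((fixn ℚ F q.out : ℝ) - 1) ^ 2) = 1 := by
    have e : (fun q : GK ℚ ⧸ (act ℚ F).ker => ((fixn ℚ F q.out : ℝ) - 1) ^ 2) =
        fun q => (fixn ℚ F q.out : ℝ) ^ 2 + ((-2) * (fixn ℚ F q.out : ℝ) + 1) := by
      funext q
      ring
    rw [e, avR_add, avR_add, avR_const_mul, avR_one, mean_fix, mean_fix_sq h2 (by omega)]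
    norm_num
  have key : ∃ B : ℝ, B < 1 ∧ LimsupLE (fun ε => size V τ ε - size V₀ τ ε) B := by
    refine strictT hcl hσ z hU (sec_one hab hmod) (abs_TT_le a b) ?_ (Or.inr ⟨1, ?_⟩)
    · rw [hmean, hw_self]
      split_ifs <;> norm_num
    · rw [fixn_one]
      have h5 : (4 : ℝ) ≤ (Module.finrank ℚ F : ℝ) := by exact_mod_cast hn
      rw [abs_of_nonneg (by linarith)]
      linarith
  refine ⟨key, fun m₀ m hm₀ hm => ?_⟩
  obtain ⟨B, hB, hlim⟩ := key
  have h6 := (orders s1.1 hm).sub (orders s0.1 hm₀)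
  have e : -(m : ℝ) - -(m₀ : ℝ) = -(((m - m₀ : ℤ)) : ℝ) := by
    push_cast
    ring
  rw [e] at h6
  have h7 := order_zero hB hlim h6
  omega

end

end Pool.Agent.X288.L2
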