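import Pool.Agent.X288.L2.Defs
import Pool.Agent.Y812.QTN11
import Pool.Agent.Y812.TM.Four

/-! Modular elliptic curves: the quadratic twists of `X_0(11)` and `X_0(14)`. -/

set_option autoImplicit false

namespace Pool.Agent.X288.L2

open Pool.Agent.Y722.EP (points IsNewformOf IsModular)
open Pool.Agent.Y19.QT (coef IsFormOf TwistsModular ap)
open Complex UpperHalfPlane MatrixGroups CongruenceSubgroup

theorem isNewformOf_of {a b : ℤ} {N : ℕ} {f : CuspForm (Gamma0 N : Subgroup (GL (Fin 2) ℝ)) 2}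
    (h : IsFormOf a b N f) : IsNewformOf f a b := by
  refine ⟨⟨h.one, h.real, h.mul, h.pow, h.good, h.bad⟩, fun p hp hd => ?_⟩
  obtain ⟨h1, h2⟩ := h.points p hp hd
  refine ⟨h1, ?_⟩
  have h3 : Pool.Agent.W165.RS.ac f p = coef f p := rfl
  rw [h3, h2]
  unfold ap points
  push_cast
  ring

theorem isModular_of {a b : ℤ} (h : TwistsModular a b) {g : ℤ} (hg : g ≠ 0) :
    IsModular (a * g ^ 2) (b * g ^ 3) := by
  obtain ⟨N, f, hf⟩ := h g hg
  exact ⟨N, ⟨hf.pos.ne'⟩, f, isNewformOf_of hf⟩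

theorem modular11 {g : ℤ} (hg : g ≠ 0) : IsModular (-13392 * g ^ 2) (-1080432 * g ^ 3) :=
  isModular_of Pool.Agent.Y812.QTN11.twists11 hg

theorem modular14 {g : ℤ} (hg : g ≠ 0) : IsModular (5805 * g ^ 2) (-285714 * g ^ 3) :=
  isModular_of Pool.Agent.Y812.TM.twists14 hg

end Pool.Agent.X288.L2
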