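import Pool.Agent.X288.L2.Main

/-! The strict inequality for combinations of norm one. -/

set_option autoImplicit false
open Classical

namespace Pool.Agent.X288.L2

open Complex Filter Topology ComplexConjugate NumberField IsDedekindDomain Asymptotics
  Pool.Agent.W401.Cheb Pool.Agent.W540.BE Pool.Agent.W353.L1 Pool.Agent.W353.NF
open Pool.Agent.H341R2 (lam lam_tendsto sysK)
open MeasureTheory intervalIntegral

theorem Mf_sq : (Mf fun x => x ^ 2) = 1 / 2 := by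
  rw [Mf_pow, Finset.sum_range_succ, Finset.sum_range_succ, Finset.sum_range_one]
  norm_num [cc]

theorem Mf_mono {φ ψ : ℝ → ℝ} (hφ : Continuous φ) (hψ : Continuous ψ) (h : ∀ x, φ x ≤ ψ x) :
    Mf φ ≤ Mf ψ := by
  unfold Mf
  have hpi := Real.pi_pos
  refine mul_le_mul_of_nonneg_left ?_ (by positivity)
  exact intervalIntegral.integral_mono (by linarith)
    ((hφ.comp Real.continuous_cos).intervalIntegrable _ _)
    ((hψ.comp Real.continuous_cos).intervalIntegrable _ _) fun θ => h _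

theorem Mf_lt {φ ψ : ℝ → ℝ} (hφ : Continuous φ) (hψ : Continuous ψ) (h : ∀ x, φ x ≤ ψ x)
    (h1 : φ 1 < ψ 1) : Mf φ < Mf ψ := by
  unfold Mf
  have hpi := Real.pi_pos
  refine mul_lt_mul_of_pos_left ?_ (by positivity)
  refine intervalIntegral.integral_lt_integral_of_continuousOn_of_le_of_exists_lt (by linarith)
    (hφ.comp Real.continuous_cos).continuousOn (hψ.comp Real.continuous_cos).continuousOn
    (fun θ _ => h _) ⟨0, ⟨by linarith, by linarith⟩, ?_⟩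
  rw [Real.cos_zero]
  exact h1

section
variable {K : Type} [Field K] [NumberField K] {U : Subgroup (GK K)}

theorem avR_lt [Finite (GK K ⧸ U)] {f g : GK K ⧸ U → ℝ} (h : ∀ q, f q ≤ g q) {q₀ : GK K ⧸ U}
    (h0 : f q₀ < g q₀) : avR U f < avR U g := by
  let _ : Fintype (GK K ⧸ U) := Fintype.ofFinite _
  unfold avR
  rw [finsum_eq_sum_of_fintype, finsum_eq_sum_of_fintype]
  have hpos : (0 : ℝ) < Nat.card (GK K ⧸ U) := by exact_mod_cast Nat.card_pos
  exact mul_lt_mul_of_pos_left (Finset.sum_lt_sum (fun q _ => h q) ⟨q₀, Finset.mem_univ _, h0⟩)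
    (by positivity)

theorem Cls.out {ψ : GK K → ℝ} (h : Cls U ψ) (g : GK K) :
    ψ (QuotientGroup.mk g : GK K ⧸ U).out = ψ g := by
  have h2 : (QuotientGroup.mk g : GK K ⧸ U) = QuotientGroup.mk (QuotientGroup.mk g :
      GK K ⧸ U).out := by
    rw [QuotientGroup.out_eq']
  rw [QuotientGroup.eq] at h2
  have h3 := h.hU g _ h2
  rw [mul_inv_cancel_left] at h3
  exact h3

/-- the mean value of the square, as a bound -/
theorem mH_sq [Finite (GK K ⧸ U)] (τ : ℝ) {γ : ℝ} (hγ : 0 < γ) (ψ : GK K → ℝ) :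
    mH U τ (fun y => y ^ 2 / (2 * γ)) ψ = hw τ τ * (avR U fun q => ψ q.out ^ 2) / (2 * γ) := by
  unfold mH
  rw [hw_self]
  by_cases h : τ = 0
  · simp only [if_pos h]
    rw [one_mul]
    have e : (fun q : GK K ⧸ U => ψ q.out ^ 2 / (2 * γ)) =
        fun q => (1 / (2 * γ)) * ψ q.out ^ 2 := by
      funext q
      ring
    rw [e, avR_const_mul]
    ring
  · simp only [if_neg h]
    have e : (fun q : GK K ⧸ U => Mf fun x => (ψ q.out * x) ^ 2 / (2 * γ)) =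
        fun q => (1 / (4 * γ)) * ψ q.out ^ 2 := by
      funext q
      have e2 : (fun x : ℝ => (ψ q.out * x) ^ 2 / (2 * γ)) =
          fun x => (ψ q.out ^ 2 / (2 * γ)) * x ^ 2 := by
        funext x
        ring
      rw [e2, Mf_const_mul, Mf_sq]
      field_simp
      ring
    rw [e, avR_const_mul]
    field_simp
    ring

theorem mH_hub_le [Finite (GK K ⧸ U)] (τ : ℝ) {γ : ℝ} (hγ : 0 < γ) (ψ : GK K → ℝ) :
    mH U τ (hub γ) ψ ≤ hw τ τ * (avR U fun q => ψ q.out ^ 2) / (2 * γ) := by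
  rw [← mH_sq τ hγ]
  unfold mH
  refine Pool.Agent.TH322.BC.avR_mono_le U fun q => ?_
  split_ifs with h
  · exact hub_le hγ _
  · exact Mf_mono ((hub_continuous hγ).comp (continuous_const.mul continuous_id))
      (by fun_prop) fun x => hub_le hγ _

theorem mH_hub_lt [Finite (GK K ⧸ U)] (τ : ℝ) {γ : ℝ} (hγ : 0 < γ) {ψ : GK K → ℝ}
    (hψ : Cls U ψ) {g : GK K} (hg : 2 * γ < |ψ g|) :
    mH U τ (hub γ) ψ < hw τ τ * (avR U fun q => ψ q.out ^ 2) / (2 * γ) := by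
  have hlt : ∀ y : ℝ, 2 * γ < |y| → hub γ y < y ^ 2 / (2 * γ) := by
    intro y hy
    rw [hub_gain hγ]
    have : 0 < (max (|y| - 2 * γ) 0) ^ 2 / (2 * γ) := by
      rw [max_eq_left (by linarith)]
      have : 0 < |y| - 2 * γ := by linarith
      positivity
    linarith
  rw [← mH_sq τ hγ]
  unfold mH
  refine avR_lt (fun q => ?_) (q₀ := QuotientGroup.mk g) ?_
  · split_ifs with h
    · exact hub_le hγ _
    · exact Mf_mono ((hub_continuous hγ).comp (continuous_const.mul continuous_id))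
        (by fun_prop) fun x => hub_le hγ _
  · rw [hψ.out]
    split_ifs with h
    · exact hlt _ hg
    · refine Mf_lt ((hub_continuous hγ).comp (continuous_const.mul continuous_id))
        (by fun_prop) (fun x => hub_le hγ _) ?_
      simp only [mul_one]
      exact hlt _ hg

/-- the constant is less than one -/
theorem exists_lt_one [Finite (GK K ⧸ U)] (τ : ℝ) {ψ : GK K → ℝ} (hψ : Cls U ψ)
    (h1 : hw τ τ * (avR U fun q => ψ q.out ^ 2) ≤ 1)
    (h2 : hw τ τ * (avR U fun q => ψ q.out ^ 2) < 1 ∨ ∃ g : GK K, 2 < |ψ g|) :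
    1 / 2 * 1 + mH U τ (hub 1) ψ < 1 := by
  rcases h2 with h2 | ⟨g, hg⟩
  · have := mH_hub_le τ one_pos (U := U) ψ
    linarith
  · have := mH_hub_lt τ one_pos hψ (g := g) (by linarith)
    linarith

end

section
variable {K : Type} [Field K] [NumberField K] {U : Subgroup (GK K)}
  {𝒮 : Pool.Agent.W353.AB.Sy K} {κ : Type*} {S : Finset κ} {F : κ → Type}
  [∀ k, Field (F k)] [∀ k, NumberField (F k)] [∀ k, Algebra K (F k)]
  {D : ∀ k, 𝓞 (F k)} {X : κ → ℝ → ℝ}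

/-- **The strict inequality.** -/
theorem strictT [U.Normal] {T : Pool.Agent.W353.TP.HX K → ℝ} {Y : ℝ → ℝ} {ψ : GK K → ℝ}
    (hcl : Cls U ψ) {t : ℝ}
    {σ : HeightOneSpectrum (𝓞 K) → GK K} (hσ : ∀ v, IsFrob v (σ v))
    (h1 : SzH T (fun v => ψ (σ v) * cz t v) Y)
    (hU : IsOpen (U : Set (GK K)))
    [Finite (GK K ⧸ U)] (hsec : Sec T 1)
    (h2 : ∀ x, |T x| ≤ 2)
    (h3 : hw t t * (avR U fun q => ψ q.out ^ 2) ≤ 1)
    (h4 : hw t t * (avR U fun q => ψ q.out ^ 2) < 1 ∨ ∃ g : GK K, 2 < |ψ g|) :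
    ∃ B : ℝ, B < 1 ∧ ∀ η : ℝ, 0 < η → ∀ᶠ ε : ℝ in 𝓝[>] 0, |Y ε| ≤ B + η :=
  ⟨1 / 2 * 1 + mH U t (hub 1) ψ, exists_lt_one t hcl h3 h4, fun η hη =>
    ineqT hcl hσ h1 hU hsec h2 one_pos hη⟩

/-- **The strict inequality.** -/
theorem Fam.strict [U.Normal] {t : ℝ} (h : Fam 𝒮 U S F D (fun _ => t) X)
    (hU : IsOpen (U : Set (GK K)))
    [Finite (GK K ⧸ U)] (hsec : Sec (Pool.Agent.W353.NF.TT 𝒮) 1)
    (h2 : ∀ x, |Pool.Agent.W353.NF.TT 𝒮 x| ≤ 2) (c : κ → ℝ)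
    (h3 : hw t t * (avR U fun q => (∑ k ∈ S, c k *
      (Pool.Agent.TH322.BC.chi K (D k : F k) q.out : ℝ)) ^ 2) ≤ 1)
    (h4 : hw t t * (avR U fun q => (∑ k ∈ S, c k *
      (Pool.Agent.TH322.BC.chi K (D k : F k) q.out : ℝ)) ^ 2) < 1 ∨
      ∃ g : GK K, 2 < |∑ k ∈ S, c k * (Pool.Agent.TH322.BC.chi K (D k : F k) g : ℝ)|) :
    ∃ B : ℝ, B < 1 ∧ ∀ η : ℝ, 0 < η → ∀ᶠ ε : ℝ in 𝓝[>] 0, |∑ k ∈ S, c k * X k ε| ≤ B + η := by
  have hcl : Cls U (fun g => ∑ k ∈ S, c k * (Pool.Agent.TH322.BC.chi K (D k : F k) g : ℝ)) :=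
    Cls.sum S fun k hk => (h.cls hk).const_mul (c k)
  refine ⟨1 / 2 * 1 + mH U t (hub 1)
    (fun g => ∑ k ∈ S, c k * (Pool.Agent.TH322.BC.chi K (D k : F k) g : ℝ)),
    exists_lt_one t hcl h3 h4, fun η hη => ?_⟩
  exact h.ineqH hU hsec h2 c one_pos hη

end

end Pool.Agent.X288.L2
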