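import Pool.Agent.X288.L2.Thm

/-! Base change of a modular elliptic curve to an arbitrary number field. -/

set_option autoImplicit false
open Classical

namespace Pool.Agent.X288.L2

open Complex Filter Topology ComplexConjugate NumberField IsDedekindDomain Asymptotics
  Pool.Agent.W401.Cheb Pool.Agent.W540.BE Pool.Agent.W353.L1 Pool.Agent.W353.NF
open Pool.Agent.W353.TP (HX sysH LL LL_tendsto)
open Pool.Agent.W353.AB (Sy syE)
open Pool.Agent.H341R2 (lam lam_tendsto sysK)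
open Pool.Agent.TH322.BC
open Pool.Agent.TH322.BC.Edge (TwistOver MinimalModels LSeries size HasOrder LimsupLE character
  character_eq orders lim_abs_le size_twist size_base coe_ne)
open Pool.Agent.Y722.EP (IsModular)

/-- Burnside's lemma -/
theorem burnside_orbits {G Y : Type*} [Group G] [Finite G] [Finite Y]
    (a : G →* Equiv.Perm Y) (r : Setoid Y) (hr : ∀ x y, r x y ↔ ∃ g, a g x = y) :
    ∑ᶠ g : G, ((Nat.card {y // a g y = y} : ℕ) : ℝ) = Nat.card (Quotient r) * Nat.card G := by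
  let _ : Fintype G := Fintype.ofFinite G
  let _ : Fintype Y := Fintype.ofFinite Y
  let _ : MulAction G Y := MulAction.compHom Y a
  have hsm : ∀ (g : G) (y : Y), g • y = a g y := fun g y => rfl
  let _ : Fintype (Quotient (MulAction.orbitRel G Y)) := Fintype.ofFinite _
  have h1 := MulAction.sum_card_fixedBy_eq_card_orbits_mul_card_group G Y
  have h2 : r = MulAction.orbitRel G Y := by
    ext x y
    rw [hr, MulAction.orbitRel_apply, MulAction.mem_orbit_iff]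
    constructor
    · rintro ⟨g, hg⟩
      refine ⟨g⁻¹, ?_⟩
      rw [← hg, ← hsm, inv_smul_smul]
    · rintro ⟨g, hg⟩
      refine ⟨g⁻¹, ?_⟩
      rw [← hsm, ← hg, inv_smul_smul]
  have h3 : Nat.card (Quotient r) = Fintype.card (Quotient (MulAction.orbitRel G Y)) := by
    rw [h2, Nat.card_eq_fintype_card]
  rw [finsum_eq_sum_of_fintype, Nat.card_eq_fintype_card (α := G), h3, ← Nat.cast_mul, ← h1,
    Nat.cast_sum]
  refine Finset.sum_congr rfl fun g _ => ?_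
  rw [Nat.card_eq_fintype_card]
  congr 1

/-- the action on the pairs -/
def pairAct (Y : Type*) : Equiv.Perm Y →* Equiv.Perm (Y × Y) where
  toFun π := Equiv.prodCongr π π
  map_one' := rfl
  map_mul' _ _ := rfl

theorem pair_card {Y : Type*} [Finite Y] (π : Equiv.Perm Y) :
    (Nat.card {z // pairAct Y π z = z}) = Nat.card {y // π y = y} * Nat.card {y // π y = y} := by
  rw [← Nat.card_prod]
  refine Nat.card_congr
    { toFun := fun z => (⟨z.1.1, congrArg Prod.fst z.2⟩, ⟨z.1.2, congrArg Prod.snd z.2⟩)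
      invFun := fun p => ⟨(p.1.1, p.2.1), Prod.ext p.1.2 p.2.2⟩
      left_inv := fun z => rfl
      right_inv := fun p => rfl }

section
variable {K F : Type} [Field K] [NumberField K] [Field F] [NumberField F] [Algebra K F]

theorem mean_fix_orbits :
    avR (act K F).ker (fun q => (fixn K F q.out : ℝ) ^ 2) = pairOrbits K F := by
  have hfinV : Finite (GK K ⧸ (act K F).ker) :=
    Subgroup.quotient_finite_of_isOpen _ (ker_act_open K F)
  set Y := (F →ₐ[K] AlgebraicClosure K) with hY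
  have g0 : (fun q : GK K ⧸ (act K F).ker => (fixn K F q.out : ℝ) ^ 2) = fun q =>
      ((Nat.card {z // pairAct Y (act K F q.out) z = z} : ℕ) : ℝ) := by
    funext q
    have h3 := pair_card (Y := Y) (act K F q.out)
    have h4 : fixn K F q.out = Nat.card {y : Y // act K F q.out y = y} := rfl
    rw [h4, sq]
    exact_mod_cast h3.symm
  rw [g0]
  have g1 := avR_ker (act K F) fun π => ((Nat.card {z // pairAct Y π z = z} : ℕ) : ℝ)
  rw [g1]
  have g3 := burnside_orbits (G := (act K F).range) (Y := Y × Y)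
    ((pairAct Y).comp (act K F).range.subtype) (pairRel K F) (fun z w => by
      constructor
      · rintro ⟨σ, h1, h2⟩
        exact ⟨⟨act K F σ, ⟨σ, rfl⟩⟩, Prod.ext h1 h2⟩
      · rintro ⟨⟨_, ⟨σ, rfl⟩⟩, h⟩
        exact ⟨σ, congrArg Prod.fst h, congrArg Prod.snd h⟩)
  have g4 : ∑ᶠ (h : (act K F).range), ((Nat.card {z // pairAct Y h.1 z = z} : ℕ) : ℝ) =
      pairOrbits K F * Nat.card (act K F).range := g3
  rw [g4]
  have : (Nat.card (act K F).range : ℝ) ≠ 0 := by exact_mod_cast Nat.card_pos.ne'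
  field_simp

theorem mean_fix_sub_sq :
    (avR (act K F).ker fun q => ((fixn K F q.out : ℝ) - 1) ^ 2) = pairOrbits K F - 1 := by
  have hfinV : Finite (GK K ⧸ (act K F).ker) :=
    Subgroup.quotient_finite_of_isOpen _ (ker_act_open K F)
  have e : (fun q : GK K ⧸ (act K F).ker => ((fixn K F q.out : ℝ) - 1) ^ 2) =
      fun q => (fixn K F q.out : ℝ) ^ 2 + ((-2) * (fixn K F q.out : ℝ) + 1) := by
    funext q
    ring
  rw [e, avR_add, avR_add, avR_const_mul, avR_one, mean_fix, mean_fix_orbits]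
  ring

end

section
variable {K : Type} [Field K] [NumberField K] {U : Subgroup (GK K)}

theorem hw_eq (τ : ℝ) : hw τ τ = kappa₂ τ := hw_self τ

/-- **The inequality and the strict inequality**, one height -/
theorem sqT [U.Normal] {T : HX K → ℝ} {Y : ℝ → ℝ} {ψ : GK K → ℝ}
    (hcl : Cls U ψ) {t : ℝ}
    {σ : HeightOneSpectrum (𝓞 K) → GK K} (hσ : ∀ v, IsFrob v (σ v))
    (h1 : SzH T (fun v => ψ (σ v) * cz t v) Y)
    (hU : IsOpen (U : Set (GK K)))
    [Finite (GK K ⧸ U)] (hsec : Sec T 1)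
    (h2 : ∀ x, |T x| ≤ 2) :
    (∀ η : ℝ, 0 < η → ∀ᶠ ε : ℝ in 𝓝[>] 0, Y ε ^ 2 ≤ kappa₂ t * (avR U fun q => ψ q.out ^ 2) + η) ∧
    ((∃ g : GK K, 4 * (kappa₂ t * avR U fun q => ψ q.out ^ 2) < ψ g ^ 2) →
      ∃ B : ℝ, 0 ≤ B ∧ B ^ 2 < kappa₂ t * (avR U fun q => ψ q.out ^ 2) ∧
        ∀ η : ℝ, 0 < η → ∀ᶠ ε : ℝ in 𝓝[>] 0, |Y ε| ≤ B + η) := by
  rw [← hw_eq]
  set A := hw t t * (avR U fun q => ψ q.out ^ 2) with hA
  have hhw : 0 < hw t t := by
    rw [hw_self]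
    split_ifs <;> norm_num
  have hA0 : 0 ≤ A := mul_nonneg hhw.le (avR_nonneg U fun q => sq_nonneg _)
  have hbd : ∀ γ : ℝ, 0 < γ → ∀ η : ℝ, 0 < η → ∀ᶠ ε : ℝ in 𝓝[>] 0,
      |Y ε| ≤ γ / 2 * 1 + A / (2 * γ) + η := by
    intro γ hγ η hη
    refine (ineqT hcl hσ h1 hU hsec h2 hγ hη).mono fun ε hε => hε.trans ?_
    have := mH_hub_le t hγ (U := U) ψ
    linarith
  refine ⟨fun η hη => ?_, fun ⟨g, hg⟩ => ?_⟩
  · have := sq_lim zero_le_one hA0 hbd hη
    rwa [one_mul] at this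
  · rcases eq_or_lt_of_le hA0 with h0 | h0
    · exfalso
      -- the mean value of the square is zero but the function is not
      have h3 : 0 < avR U fun q => ψ q.out ^ 2 := by
        have h4 : avR U (fun _ => (0 : ℝ)) < avR U fun q => ψ q.out ^ 2 := by
          refine avR_lt (fun q => sq_nonneg _) (q₀ := QuotientGroup.mk g) ?_
          rw [hcl.out]
          rw [← h0] at hg
          linarith
        rwa [avR_one] at h4
      have := mul_pos hhw h3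
      linarith
    · set γ := Real.sqrt A with hγd
      have hγ : 0 < γ := Real.sqrt_pos.2 h0
      have hγ2 : γ ^ 2 = A := Real.sq_sqrt h0.le
      have h5 : 2 * γ < |ψ g| := by
        refine lt_of_pow_lt_pow_left₀ 2 (abs_nonneg _) ?_
        rw [sq_abs, mul_pow, hγ2]
        linarith
      have h6 := mH_hub_lt t hγ hcl h5
      have h7 : hw t t * (avR U fun q => ψ q.out ^ 2) / (2 * γ) = γ / 2 := by
        rw [← hA, ← hγ2]
        field_simp
      rw [h7] at h6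
      have h8 : 0 ≤ mH U t (hub γ) ψ := by
        unfold mH
        refine avR_nonneg U fun q => ?_
        have hh : ∀ y : ℝ, 0 ≤ hub γ y := by
          intro y
          have := hub_bound hγ (t := 0) (by simp) y
          simpa using this
        split_ifs
        · exact hh _
        · have h9 := Mf_mono (φ := fun _ => (0 : ℝ)) (ψ := fun x => hub γ (ψ q.out * x))
            continuous_const ((hub_continuous hγ).comp (continuous_const.mul continuous_id))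
            fun x => hh _
          have h10 : Mf (fun _ => (0 : ℝ)) = 0 := by
            unfold Mf
            simp
          rwa [h10] at h9
      refine ⟨γ / 2 * 1 + mH U t (hub γ) ψ, by positivity, ?_,
        fun η hη => ineqT hcl hσ h1 hU hsec h2 hγ hη⟩
      rw [← hγ2]
      exact pow_lt_pow_left₀ (by linarith) (by positivity) two_ne_zero

end

section
variable {a b : ℤ} (hab : 4 * a ^ 3 + 27 * b ^ 2 ≠ 0) (hmod : IsModular a b)

include hab hmod in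
/-- **Base change.** -/
theorem base_change {F : Type} [Field F] [NumberField F] [Algebra ℚ F]
    {V₀ : HeightOneSpectrum (𝓞 ℚ) → WeierstrassCurve (𝓞 ℚ)}
    (hV₀ : MinimalModels (EC ℚ a b) V₀)
    {V : HeightOneSpectrum (𝓞 F) → WeierstrassCurve (𝓞 F)}
    (hV : MinimalModels ((EC ℚ a b).map (algebraMap ℚ F)) V) (τ : ℝ) :
    (∀ η : ℝ, 0 < η → ∀ᶠ ε : ℝ in 𝓝[>] 0,
      (size V τ ε - size V₀ τ ε) ^ 2 ≤ kappa₂ τ * (pairOrbits ℚ F - 1) + η) ∧
    (4 * (kappa₂ τ * (pairOrbits ℚ F - 1)) < ((Module.finrank ℚ F : ℝ) - 1) ^ 2 →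
      ∃ B : ℝ, 0 ≤ B ∧ B ^ 2 < kappa₂ τ * (pairOrbits ℚ F - 1) ∧
        LimsupLE (fun ε => size V τ ε - size V₀ τ ε) B) ∧
    ∀ m₀ m : ℤ, HasOrder V₀ τ m₀ → HasOrder V τ m →
      ((m : ℝ) - m₀) ^ 2 ≤ kappa₂ τ * (pairOrbits ℚ F - 1) ∧
      (4 * (kappa₂ τ * (pairOrbits ℚ F - 1)) < ((Module.finrank ℚ F : ℝ) - 1) ^ 2 →
        ((m : ℝ) - m₀) ^ 2 < kappa₂ τ * (pairOrbits ℚ F - 1)) := by
  have hU := ker_act_open ℚ F
  have hfin : Finite (GK ℚ ⧸ (act ℚ F).ker) := Subgroup.quotient_finite_of_isOpen _ hU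
  have hV₀' : MinimalModels ((EC ℚ a b).map (algebraMap ℚ ℚ)) V₀ := by
    have : (EC ℚ a b).map (algebraMap ℚ ℚ) = EC ℚ a b := (EC ℚ a b).map_id
    rwa [this]
  have s0 := size_base (F := ℚ) one_ne_zero (P_eq a b) (Q_eq a b) (PQ_ne hab) hV₀' τ
  have s1 := size_base one_ne_zero (P_eq a b) (Q_eq a b) (PQ_ne hab) hV τ
  choose σ hσ using exists_isFrob (F := ℚ)
  have z1 : SzH (Pool.Agent.W353.NF.TT (syE (PP ℚ a) (QQ ℚ b)))
      (fun v => (chi ℚ (((1 : 𝓞 F) : F)) (σ v) : ℝ) * cz τ v) (size V τ) :=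
    size_chi _ (syE_real _ _) one_ne_zero (Pool.Agent.TH322.BC.Edge.syE_D _ _ _) σ hσ s1.2
  have z0 : SzH (Pool.Agent.W353.NF.TT (syE (PP ℚ a) (QQ ℚ b)))
      (fun v => (chi ℚ (((1 : 𝓞 ℚ) : ℚ)) (σ v) : ℝ) * cz τ v) (size V₀ τ) :=
    size_chi _ (syE_real _ _) one_ne_zero (Pool.Agent.TH322.BC.Edge.syE_D _ _ _) σ hσ s0.2
  obtain ⟨M₁, hM₁, hM₁'⟩ : ∃ M : ℝ, 0 ≤ M ∧ ∀ g : GK ℚ, |(chi ℚ (((1 : 𝓞 F) : F)) g : ℝ)| ≤ M :=
    ⟨_, Nat.cast_nonneg _, fun g => abs_chi_le _ _⟩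
  obtain ⟨M₀, hM₀, hM₀'⟩ : ∃ M : ℝ, 0 ≤ M ∧ ∀ g : GK ℚ, |(chi ℚ (((1 : 𝓞 ℚ) : ℚ)) g : ℝ)| ≤ M :=
    ⟨_, Nat.cast_nonneg _, fun g => abs_chi_le _ _⟩
  have hb1 : ∀ v, |(chi ℚ (((1 : 𝓞 F) : F)) (σ v) : ℝ) * cz τ v| ≤ M₁ := by
    intro v
    rw [abs_mul]
    calc _ ≤ M₁ * 1 := mul_le_mul (hM₁' _) (abs_cz _ _) (abs_nonneg _) hM₁
      _ = _ := mul_one _
  have hb0 : ∀ v, |(-1 : ℝ) * ((chi ℚ (((1 : 𝓞 ℚ) : ℚ)) (σ v) : ℝ) * cz τ v)| ≤ M₀ := by
    intro v
    rw [abs_mul, abs_mul, abs_neg, abs_one, one_mul]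
    calc _ ≤ M₀ * 1 := mul_le_mul (hM₀' _) (abs_cz _ _) (abs_nonneg _) hM₀
      _ = _ := mul_one _
  have z := (z1.add (z0.const_mul (-1)) (abs_TT_le a b) hb1 hb0).congr
    (Ψ' := fun v => ((fixn ℚ F (σ v) : ℝ) - 1) * cz τ v)
    (X' := fun ε => size V τ ε - size V₀ τ ε) (fun v => by
      rw [chi_one', chi_one', fixn_self]
      push_cast
      ring) (fun ε => by ring)
  have hcl : Cls (act ℚ F).ker (fun g => (fixn ℚ F g : ℝ) - 1) :=
    ⟨fun g u hu => by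
      have : fixn ℚ F (g * u) = fixn ℚ F g := fixn_mul_ker ℚ F g u hu
      rw [this], fun g ρ => by rw [fixn_conj], fun g => by rw [fixn_inv]⟩
  obtain ⟨k1, k2⟩ := sqT hcl hσ z hU (sec_one hab hmod) (abs_TT_le a b)
  rw [mean_fix_sub_sq] at k1 k2
  have k3 : 4 * (kappa₂ τ * (pairOrbits ℚ F - 1)) < ((Module.finrank ℚ F : ℝ) - 1) ^ 2 →
      ∃ B : ℝ, 0 ≤ B ∧ B ^ 2 < kappa₂ τ * (pairOrbits ℚ F - 1) ∧
        LimsupLE (fun ε => size V τ ε - size V₀ τ ε) B := by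
    intro h
    exact k2 ⟨1, by rw [fixn_one]; exact h⟩
  refine ⟨k1, k3, fun m₀ m hm₀ hm => ?_⟩
  have h6 := (orders s1.1 hm).sub (orders s0.1 hm₀)
  have e : -(m : ℝ) - -(m₀ : ℝ) = -((m : ℝ) - m₀) := by ring
  rw [e] at h6
  constructor
  · have h7 := h6.pow 2
    rw [neg_sq] at h7
    refine le_of_forall_pos_le_add fun η hη => ?_
    exact le_of_tendsto h7 (k1 η hη)
  · intro h
    obtain ⟨B, hB0, hB, hlim⟩ := k3 h
    have h8 := lim_abs_le h6 hlim
    rw [abs_neg] at h8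
    rw [← sq_abs]
    exact lt_of_le_of_lt (pow_le_pow_left₀ (abs_nonneg _) h8 2) hB

include hab hmod in
/-- **The function over `F` itself.** -/
theorem own_order {F : Type} [Field F] [NumberField F] [Algebra ℚ F]
    {V : HeightOneSpectrum (𝓞 F) → WeierstrassCurve (𝓞 F)}
    (hV : MinimalModels ((EC ℚ a b).map (algebraMap ℚ F)) V) (τ : ℝ) :
    (∀ η : ℝ, 0 < η → ∀ᶠ ε : ℝ in 𝓝[>] 0,
      size V τ ε ^ 2 ≤ kappa₂ τ * pairOrbits ℚ F + η) ∧
    (4 * (kappa₂ τ * pairOrbits ℚ F) < (Module.finrank ℚ F : ℝ) ^ 2 →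
      ∃ B : ℝ, 0 ≤ B ∧ B ^ 2 < kappa₂ τ * pairOrbits ℚ F ∧ LimsupLE (size V τ) B) ∧
    ∀ m : ℤ, HasOrder V τ m →
      (m : ℝ) ^ 2 ≤ kappa₂ τ * pairOrbits ℚ F ∧
      (4 * (kappa₂ τ * pairOrbits ℚ F) < (Module.finrank ℚ F : ℝ) ^ 2 →
        (m : ℝ) ^ 2 < kappa₂ τ * pairOrbits ℚ F) := by
  have hU := ker_act_open ℚ F
  have hfin : Finite (GK ℚ ⧸ (act ℚ F).ker) := Subgroup.quotient_finite_of_isOpen _ hU
  have s1 := size_base one_ne_zero (P_eq a b) (Q_eq a b) (PQ_ne hab) hV τ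
  choose σ hσ using exists_isFrob (F := ℚ)
  have z1 : SzH (Pool.Agent.W353.NF.TT (syE (PP ℚ a) (QQ ℚ b)))
      (fun v => (chi ℚ (((1 : 𝓞 F) : F)) (σ v) : ℝ) * cz τ v) (size V τ) :=
    size_chi _ (syE_real _ _) one_ne_zero (Pool.Agent.TH322.BC.Edge.syE_D _ _ _) σ hσ s1.2
  have z := z1.congr (Ψ' := fun v => (fixn ℚ F (σ v) : ℝ) * cz τ v)
    (X' := fun ε => size V τ ε) (fun v => by
      rw [chi_one']
      push_cast
      ring) (fun ε => rfl)
  have hcl : Cls (act ℚ F).ker (fun g => (fixn ℚ F g : ℝ)) :=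
    ⟨fun g u hu => by
      have : fixn ℚ F (g * u) = fixn ℚ F g := fixn_mul_ker ℚ F g u hu
      rw [this], fun g ρ => by rw [fixn_conj], fun g => by rw [fixn_inv]⟩
  obtain ⟨k1, k2⟩ := sqT hcl hσ z hU (sec_one hab hmod) (abs_TT_le a b)
  rw [mean_fix_orbits] at k1 k2
  have k3 : 4 * (kappa₂ τ * pairOrbits ℚ F) < (Module.finrank ℚ F : ℝ) ^ 2 →
      ∃ B : ℝ, 0 ≤ B ∧ B ^ 2 < kappa₂ τ * pairOrbits ℚ F ∧ LimsupLE (size V τ) B := by
    intro h
    exact k2 ⟨1, by rw [fixn_one]; exact h⟩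
  refine ⟨k1, k3, fun m hm => ?_⟩
  have h6 := orders s1.1 hm
  constructor
  · have h7 := h6.pow 2
    rw [neg_sq] at h7
    refine le_of_forall_pos_le_add fun η hη => ?_
    exact le_of_tendsto h7 (k1 η hη)
  · intro h
    obtain ⟨B, hB0, hB, hlim⟩ := k3 h
    have h8 := lim_abs_le h6 hlim
    rw [abs_neg] at h8
    rw [← sq_abs]
    exact lt_of_le_of_lt (pow_le_pow_left₀ (abs_nonneg _) h8 2) hB

end

end Pool.Agent.X288.L2
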