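import Pool.Agent.TH322.BC.Defs
import Pool.Agent.Y722.EP.Defs

/-!
# The edge of the L-functions of a modular elliptic curve over number fields: definitions

The definitions of the twists `E_D` over number fields `F ⊇ K`, of their `L`-functions and of the orders
at the points of the line `Re s = 3/2` are in `Pool.Agent.TH322.BC.Defs`; modular elliptic curves over
`ℚ` are defined in `Pool.Agent.Y722.EP.Defs`.
-/

set_option autoImplicit false
open Classical

namespace Pool.Agent.X288.L2

open NumberField IsDedekindDomain Filter Topology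
open Pool.Agent.W353.EF (perm)
open Pool.Agent.TH322.BC.Edge (TwistOver size HasOrder character)

/-- The curve `y² = x³ + a x + b`. -/
def EC (k : Type) [Field k] (a b : ℤ) : WeierstrassCurve k where
  a₁ := 0
  a₂ := 0
  a₃ := 0
  a₄ := a
  a₆ := b

/-- The weight of a pair of heights: `1` if both are zero, `1/2` if they are equal up to the sign and
not zero, and `0` otherwise. -/
noncomputable def hw (s t : ℝ) : ℝ := (if s = t then 1 / 2 else 0) + (if s + t = 0 then 1 / 2 else 0)

section
variable {K : Type} [Field K] [NumberField K]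

/-- **Linear relations, with squares.**  Let `E_{D_k}` be finitely many twists of `E` over number fields
`F_k ⊇ K`, `χ_k` the character of `Gal(K̄/K)` induced from the quadratic character of `F_k(√D_k)/F_k`,
`τ_k` real heights and `c_k` real numbers, and let `Q = ∑ c_k c_l w(τ_k, τ_l) mean(χ_k χ_l)` (the sum over
all pairs `k`, `l`, with the weights `hw`).  Then
`limsup (∑ c_k log |L(E_{D_k} / F_k, 3/2 + iτ_k + ε)| / log(1/ε))² ≤ Q` as `ε → 0+`, and
`(∑ c_k m_k)² ≤ Q` for the orders `m_k` at `3/2 + iτ_k`, if the functions have continuations to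
neighbourhoods of these points.  The mean values are taken over `Gal(K̄/K) / U`, where `U` is any open
normal subgroup acting trivially on the conjugates of the fields `F_k` and of the `√D_k`. -/
def SquareRelations (E : WeierstrassCurve K) : Prop :=
  ∀ (ι : Type) [Fintype ι] (F : ι → Type) [∀ k, Field (F k)] [∀ k, NumberField (F k)]
    [∀ k, Algebra K (F k)] (X : ∀ k, TwistOver E (F k)) (U : Subgroup Gal(AlgebraicClosure K/K))
    [U.Normal], IsOpen (U : Set Gal(AlgebraicClosure K/K)) →
    (∀ k, ∀ u ∈ U, perm K (F k) u = 1 ∧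
      ∀ i : F k →ₐ[K] AlgebraicClosure K, ∀ s : AlgebraicClosure K, s ^ 2 = i (X k).D → u s = s) →
    ∀ τ c : ι → ℝ,
      (∀ η : ℝ, 0 < η → ∀ᶠ ε : ℝ in 𝓝[>] 0, (∑ k, c k * size (X k).V (τ k) ε) ^ 2 ≤
        (∑ k, ∑ l, c k * c l * (hw (τ k) (τ l) *
          ((Nat.card (Gal(AlgebraicClosure K/K) ⧸ U) : ℝ)⁻¹ *
            ∑ᶠ q : Gal(AlgebraicClosure K/K) ⧸ U,
              (character (K := K) ((X k).D : F k) q.out : ℝ) *
                (character (K := K) ((X l).D : F l) q.out : ℝ)))) + η) ∧
      ∀ m : ι → ℤ, (∀ k, HasOrder (X k).V (τ k) (m k)) → (∑ k, c k * m k) ^ 2 ≤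
        ∑ k, ∑ l, c k * c l * (hw (τ k) (τ l) *
          ((Nat.card (Gal(AlgebraicClosure K/K) ⧸ U) : ℝ)⁻¹ *
            ∑ᶠ q : Gal(AlgebraicClosure K/K) ⧸ U,
              (character (K := K) ((X k).D : F k) q.out : ℝ) *
                (character (K := K) ((X l).D : F l) q.out : ℝ)))

end

/-- For any two different `K`-embeddings `i`, `j` of `F` in `K̄` the product `i(D) j(D)` is not a square
in the compositum `i(F) j(F)`.  By Mackey's criterion this means that the representation of
`Gal(K̄/K)` induced from the quadratic character of `F(√D)/F` is irreducible. -/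
def IrrTwist (K : Type) {F : Type} [Field K] [Field F] [Algebra K F] (D : F) : Prop :=
  ∀ i j : F →ₐ[K] AlgebraicClosure K, i ≠ j →
    ¬ ∃ x ∈ (i.fieldRange ⊔ j.fieldRange : IntermediateField K (AlgebraicClosure K)),
      x ^ 2 = i D * j D

/-- The Galois group acts doubly transitively on the `K`-embeddings of `F` in `K̄`: for example if it
is the symmetric group, the alternating group or `PSL₂(q)` acting on the projective line, or a Mathieu
group in its natural action. -/
def TwoTrans (K F : Type) [Field K] [Field F] [Algebra K F] : Prop :=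
  ∀ i j k l : F →ₐ[K] AlgebraicClosure K, i ≠ j → k ≠ l →
    ∃ σ : Gal(AlgebraicClosure K/K), perm K F σ i = k ∧ perm K F σ j = l

/-- Two pairs of `K`-embeddings of `F` in `K̄` are equivalent if an element of the Galois group maps one
to the other. -/
def pairRel (K F : Type) [Field K] [Field F] [Algebra K F] :
    Setoid ((F →ₐ[K] AlgebraicClosure K) × (F →ₐ[K] AlgebraicClosure K)) where
  r z w := ∃ σ : Gal(AlgebraicClosure K/K), perm K F σ z.1 = w.1 ∧ perm K F σ z.2 = w.2
  iseqv :=
    { refl := fun z => ⟨1, by rw [map_one]; exact ⟨rfl, rfl⟩⟩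
      symm := fun {z w} ⟨σ, h1, h2⟩ => ⟨σ⁻¹, by
        rw [map_inv, ← h1, ← h2]
        exact ⟨(perm K F σ).symm_apply_apply _, (perm K F σ).symm_apply_apply _⟩⟩
      trans := fun {x y z} ⟨σ, h1, h2⟩ ⟨ρ, h3, h4⟩ => ⟨ρ * σ, by
        rw [map_mul, Equiv.Perm.mul_apply, Equiv.Perm.mul_apply, h1, h2, h3, h4]
        exact ⟨rfl, rfl⟩⟩ }

/-- The number of the orbits of the Galois group on the pairs of `K`-embeddings of `F` in `K̄` (the
number of the double cosets `H \ G / H`).  It is `1` if `F = K`, and `2` if the action on the embeddings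
is doubly transitive. -/
noncomputable def pairOrbits (K F : Type) [Field K] [Field F] [Algebra K F] : ℕ :=
  Nat.card (Quotient (pairRel K F))

/-- The factor for the height `τ`: `1` at the real point, and `1/2` at the other points. -/
noncomputable def kappa₂ (τ : ℝ) : ℝ := if τ = 0 then 1 else 1 / 2

end Pool.Agent.X288.L2
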