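import Pool.Agent.X288.L2.Mean
import Pool.Agent.X288.L2.Size

/-! Inequalities for the sizes from the second moment. -/

set_option autoImplicit false
open Classical

namespace Pool.Agent.X288.L2

open Complex Filter Topology ComplexConjugate NumberField IsDedekindDomain Asymptotics
  Pool.Agent.W401.Cheb Pool.Agent.W540.BE Pool.Agent.W353.L1 Pool.Agent.W353.NF
open Pool.Agent.W353.TP (HX sysH LL LL_tendsto E_H EH_eq bdd_isLittleO lam0_sub)
open Pool.Agent.W353.AB (Sy)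
open Pool.Agent.H341R2 (lam lam_tendsto sysK)
open Pool.Agent.TH322.BC

/-- optimisation of the parameter -/
theorem sq_lim {l : Filter ℝ} {x : ℝ → ℝ} {β A : ℝ} (hβ : 0 ≤ β) (hA : 0 ≤ A)
    (h : ∀ γ : ℝ, 0 < γ → ∀ η : ℝ, 0 < η → ∀ᶠ ε in l, |x ε| ≤ γ / 2 * β + A / (2 * γ) + η)
    {η : ℝ} (hη : 0 < η) : ∀ᶠ ε in l, x ε ^ 2 ≤ β * A + η := by
  have hcont : Continuous fun δ : ℝ => (Real.sqrt ((A + δ) * (β + δ)) + δ) ^ 2 := by fun_prop
  have h0 : (Real.sqrt ((A + 0) * (β + 0)) + 0) ^ 2 = β * A := by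
    rw [add_zero, add_zero, add_zero, Real.sq_sqrt (mul_nonneg hA hβ), mul_comm]
  have h1 : ∀ᶠ δ : ℝ in 𝓝[>] 0, (Real.sqrt ((A + δ) * (β + δ)) + δ) ^ 2 < β * A + η := by
    have := hcont.tendsto 0
    rw [h0] at this
    exact (this.eventually_lt_const (by linarith)).filter_mono nhdsWithin_le_nhds
  obtain ⟨δ, h2, h3⟩ := (h1.and self_mem_nhdsWithin).exists
  have hδ : (0 : ℝ) < δ := h3
  have hA' : 0 < A + δ := by linarith
  have hβ' : 0 < β + δ := by linarith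
  set r : ℝ := Real.sqrt ((A + δ) * (β + δ)) with hr
  have hr0 : 0 < r := Real.sqrt_pos.2 (mul_pos hA' hβ')
  have hr2 : r ^ 2 = (A + δ) * (β + δ) := Real.sq_sqrt (mul_pos hA' hβ').le
  have hγ : 0 < r / (β + δ) := div_pos hr0 hβ'
  filter_upwards [h (r / (β + δ)) hγ δ hδ] with ε h4
  have h5 : r / (β + δ) / 2 * β + A / (2 * (r / (β + δ))) ≤ r := by
    have e1 : r / (β + δ) / 2 * β ≤ r / 2 := by
      have : r / (β + δ) / 2 * β ≤ r / (β + δ) / 2 * (β + δ) :=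
        mul_le_mul_of_nonneg_left (by linarith) (by positivity)
      refine this.trans (le_of_eq ?_)
      field_simp
    have e2 : A / (2 * (r / (β + δ))) ≤ r / 2 := by
      have e3 : A / (2 * (r / (β + δ))) = A * (β + δ) / (2 * r) := by field_simp
      rw [e3, div_le_div_iff₀ (by positivity) (by norm_num)]
      have e4 : A * (β + δ) ≤ r ^ 2 := by
        rw [hr2]
        exact mul_le_mul_of_nonneg_right (by linarith) hβ'.le
      nlinarith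
    linarith
  have h6 : |x ε| ≤ r + δ := by linarith
  have h7 : x ε ^ 2 ≤ (r + δ) ^ 2 := by
    rw [← sq_abs]
    exact pow_le_pow_left₀ (abs_nonneg _) h6 2
  exact h7.trans h2.le

theorem amgm {γ : ℝ} (hγ : 0 < γ) (t y : ℝ) : |t * y| ≤ γ / 2 * t ^ 2 + y ^ 2 / (2 * γ) := by
  have h1 : 0 ≤ (γ * |t| - |y|) ^ 2 / (2 * γ) := by positivity
  have h2 : (γ * |t| - |y|) ^ 2 / (2 * γ) = γ / 2 * |t| ^ 2 + |y| ^ 2 / (2 * γ) - |t| * |y| := by
    field_simp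
    ring
  rw [abs_mul]
  rw [sq_abs, sq_abs] at h2
  linarith

/-- the largest value of `|t y| - (γ/2) t²` for `|t| ≤ 2` -/
noncomputable def hub (γ y : ℝ) : ℝ :=
  if |y| ≤ 2 * γ then y ^ 2 / (2 * γ) else 2 * |y| - 2 * γ

theorem hub_eq {γ : ℝ} (hγ : 0 < γ) (y : ℝ) :
    hub γ y = min |y| (2 * γ) * |y| / γ - (min |y| (2 * γ)) ^ 2 / (2 * γ) := by
  unfold hub
  split_ifs with h
  · rw [min_eq_left h, ← sq_abs]
    field_simp
    ring
  · rw [min_eq_right (not_le.1 h).le]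
    field_simp

theorem hub_continuous {γ : ℝ} (hγ : 0 < γ) : Continuous (hub γ) := by
  have : hub γ = fun y => min |y| (2 * γ) * |y| / γ - (min |y| (2 * γ)) ^ 2 / (2 * γ) :=
    funext fun y => hub_eq hγ y
  rw [this]
  fun_prop

theorem hub_bound {γ : ℝ} (hγ : 0 < γ) {t : ℝ} (ht : |t| ≤ 2) (y : ℝ) :
    |t * y| ≤ γ / 2 * t ^ 2 + hub γ y := by
  unfold hub
  split_ifs with h
  · exact amgm hγ t y
  · rw [abs_mul]
    have h' := (not_le.1 h).le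
    have h0 := abs_nonneg t
    rw [← sq_abs t]
    nlinarith [mul_nonneg (sub_nonneg.2 ht) (sub_nonneg.2 h'),
      mul_nonneg hγ.le (mul_self_nonneg (2 - |t|))]

/-- the gain -/
theorem hub_gain {γ : ℝ} (hγ : 0 < γ) (y : ℝ) :
    hub γ y = y ^ 2 / (2 * γ) - (max (|y| - 2 * γ) 0) ^ 2 / (2 * γ) := by
  unfold hub
  split_ifs with h
  · rw [max_eq_right (by linarith)]
    simp
  · rw [max_eq_left (by linarith [not_le.1 h]), ← sq_abs y]
    field_simp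
    ring

theorem hub_le {γ : ℝ} (hγ : 0 < γ) (y : ℝ) : hub γ y ≤ y ^ 2 / (2 * γ) := by
  rw [hub_gain hγ]
  have : 0 ≤ (max (|y| - 2 * γ) 0) ^ 2 / (2 * γ) := by positivity
  linarith

section
variable {K : Type} [Field K] [NumberField K]

/-- the data of a family of twists over number fields containing `K` -/
structure Fam (𝒮 : Sy K) (U : Subgroup (GK K)) {κ : Type*} (S : Finset κ) (F : κ → Type)
    [∀ k, Field (F k)] [∀ k, NumberField (F k)] [∀ k, Algebra K (F k)]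
    (D : ∀ k, 𝓞 (F k)) (τ : κ → ℝ) (X : κ → ℝ → ℝ) : Prop where
  real : ∀ j ∈ 𝒮.P, ∀ x, (𝒮.T j x).im = 0
  ne : ∀ k ∈ S, D k ≠ 0
  hSD : ∀ k ∈ S, ∀ j ∈ 𝒮.P, 𝒮.D (fun _ => D k) j = D k
  ker : ∀ k ∈ S, ∀ u ∈ U, act K (F k) u = 1 ∧
      ∀ i : F k →ₐ[K] AlgebraicClosure K, ∀ s : AlgebraicClosure K, s ^ 2 = i (D k) → u s = s
  size : ∀ k ∈ S, 𝒮.IsSize (F := F k) (fun _ => D k) (τ k) (X k)

variable {𝒮 : Sy K} {U : Subgroup (GK K)} {κ : Type*} {S : Finset κ} {F : κ → Type}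
  [∀ k, Field (F k)] [∀ k, NumberField (F k)] [∀ k, Algebra K (F k)]
  {D : ∀ k, 𝓞 (F k)} {τ : κ → ℝ} {X : κ → ℝ → ℝ}

theorem Fam.cls (h : Fam 𝒮 U S F D τ X) {k : κ} (hk : k ∈ S) :
    Cls U fun g => (chi K (D k : F k) g : ℝ) := by
  have hD : (D k : F k) ≠ 0 := fun h' => h.ne k hk (RingOfIntegers.ext h')
  exact ⟨fun σ u hu => by rw [chi_mul_ker hD σ u (h.ker k hk u hu).1 (h.ker k hk u hu).2],
    fun σ ρ => by rw [chi_conj hD], fun σ => by rw [chi_inv hD]⟩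

theorem Fam.szH (h : Fam 𝒮 U S F D τ X) (σ : HeightOneSpectrum (𝓞 K) → GK K)
    (hσ : ∀ v, IsFrob v (σ v)) (c : κ → ℝ) :
    SzH (Pool.Agent.W353.NF.TT 𝒮)
      (fun v => ∑ k ∈ S, c k * ((chi K (D k : F k) (σ v) : ℝ) * cz (τ k) v))
      (fun ε => ∑ k ∈ S, c k * X k ε) :=
  SzH.sum S (fun k hk => size_chi 𝒮 h.real (h.ne k hk) (h.hSD k hk) σ hσ (h.size k hk))
    (abs_TT 𝒮) (B := fun k => (Module.finrank ℚ (F k) : ℝ)) (fun k _ v => by
      rw [abs_mul]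
      calc |(chi K (D k : F k) (σ v) : ℝ)| * |cz (τ k) v| ≤ (Module.finrank ℚ (F k) : ℝ) * 1 :=
            mul_le_mul (abs_chi_le _ _) (abs_cz _ _) (abs_nonneg _) (by positivity)
        _ = _ := mul_one _) c

/-- the mean of the square of a combination of characters with heights -/
noncomputable def gram (U : Subgroup (GK K)) (S : Finset κ) (D : ∀ k, 𝓞 (F k)) (τ : κ → ℝ)
    (c : κ → ℝ) : ℝ :=
  ∑ k ∈ S, ∑ l ∈ S, c k * c l * (hw (τ k) (τ l) * avR U fun q =>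
    (chi K (D k : F k) q.out : ℝ) * (chi K (D l : F l) q.out : ℝ))

/-- **The inequality for several heights.** -/
theorem Fam.ineq [U.Normal] (h : Fam 𝒮 U S F D τ X) (hU : IsOpen (U : Set (GK K)))
    [Finite (GK K ⧸ U)] {β : ℝ} (hβ : 0 ≤ β) (hsec : Sec (Pool.Agent.W353.NF.TT 𝒮) β)
    (c : κ → ℝ) {η : ℝ} (hη : 0 < η) :
    0 ≤ gram U S D τ c ∧
    ∀ᶠ ε : ℝ in 𝓝[>] 0, (∑ k ∈ S, c k * X k ε) ^ 2 ≤ β * gram U S D τ c + η := by
  choose σ hσ using exists_isFrob (F := K)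
  have h1 := h.szH σ hσ c
  have h2 := has_sq hU σ hσ S (ψ := fun k g => (chi K (D k : F k) g : ℝ)) (fun k hk => h.cls hk)
    τ c
  obtain ⟨⟨B, hB⟩, hlim⟩ := h2
  have hlim' : Tendsto (fun ε : ℝ => (EP (nm K) ε fun v => (∑ k ∈ S, c k *
      ((chi K (D k : F k) (σ v) : ℝ) * cz (τ k) v)) ^ 2) / lam ε) (𝓝[>] 0)
      (𝓝 (gram U S D τ c)) := hlim
  have hA0 : 0 ≤ gram U S D τ c := by
    refine ge_of_tendsto hlim' ?_
    filter_upwards [lam_tendsto.eventually_gt_atTop 0] with ε hε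
    refine div_nonneg ?_ hε.le
    exact (sysK K).E_nonneg (ε := ε) fun v => sq_nonneg _
  refine ⟨hA0, sq_lim hβ hA0 (fun γ hγ η' hη' => ?_) hη⟩
  obtain ⟨B1, hB1⟩ : ∃ B1 : ℝ, ∀ v, |∑ k ∈ S, c k *
      ((chi K (D k : F k) (σ v) : ℝ) * cz (τ k) v)| ≤ B1 := by
    refine ⟨∑ k ∈ S, |c k| * (Module.finrank ℚ (F k) : ℝ), fun v =>
      (Finset.abs_sum_le_sum_abs _ _).trans (Finset.sum_le_sum fun k _ => ?_)⟩
    rw [abs_mul, abs_mul]
    refine mul_le_mul_of_nonneg_left ?_ (abs_nonneg _)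
    calc |(chi K (D k : F k) (σ v) : ℝ)| * |cz (τ k) v| ≤ (Module.finrank ℚ (F k) : ℝ) * 1 :=
            mul_le_mul (abs_chi_le _ _) (abs_cz _ _) (abs_nonneg _) (by positivity)
        _ = _ := mul_one _
  refine size_le_G (G := fun y => y ^ 2 / (2 * γ)) (abs_TT 𝒮) hB1 h1 hsec hγ.le
    (B' := B / (2 * γ)) (fun v => ?_) (fun t y _ => amgm hγ t y) (fun η'' hη'' => ?_) hη'
  · rw [abs_div, abs_of_pos (by positivity : 0 < 2 * γ)]
    exact div_le_div_of_nonneg_right (hB v) (by positivity)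
  · have h5 := hlim'.const_mul (1 / (2 * γ))
    have h6 : 1 / (2 * γ) * gram U S D τ c < gram U S D τ c / (2 * γ) + η'' := by
      rw [one_div, inv_mul_eq_div]
      linarith
    refine (h5.eventually_lt_const h6).mono fun ε hε => le_trans (le_of_eq ?_) hε.le
    rw [← mul_div_assoc, ← EP_const_mul]
    congr 2
    funext v
    ring

/-- **The inequality for one height**, with both bounds for the coefficients. -/
theorem ineqT [U.Normal] {T : HX K → ℝ} {Y : ℝ → ℝ} {ψ : GK K → ℝ} (hcl : Cls U ψ) {t : ℝ}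
    {σ : HeightOneSpectrum (𝓞 K) → GK K} (hσ : ∀ v, IsFrob v (σ v))
    (h1 : SzH T (fun v => ψ (σ v) * cz t v) Y)
    (hU : IsOpen (U : Set (GK K)))
    [Finite (GK K ⧸ U)] {β : ℝ} (hsec : Sec T β)
    (h2 : ∀ x, |T x| ≤ 2) {γ : ℝ} (hγ : 0 < γ) {η : ℝ}
    (hη : 0 < η) :
    ∀ᶠ ε : ℝ in 𝓝[>] 0, |Y ε| ≤ γ / 2 * β + mH U t (hub γ) ψ + η := by
  have hlim := gen_mean hU σ hσ hcl t (hub_continuous hγ)
  obtain ⟨M, hM0, hM⟩ := hcl.bdd
  have hb : ∀ v, |ψ (σ v) * cz t v| ≤ M := by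
    intro v
    rw [abs_mul]
    calc _ ≤ M * 1 := mul_le_mul (hM _) (abs_cz _ _) (abs_nonneg _) hM0.le
      _ = M := mul_one M
  obtain ⟨B, hB⟩ := (isCompact_Icc (a := -M) (b := M)).exists_bound_of_continuousOn
        (f := hub γ) (hub_continuous hγ).continuousOn
  refine size_le_G (G := hub γ) h2 hb h1 hsec hγ.le
    (B' := B) (fun v => hB _ (abs_le.1 (hb v))) (fun t y ht => hub_bound hγ ht y)
    (fun η'' hη'' => ?_) hη
  exact (hlim.eventually_lt_const (lt_add_of_pos_right _ hη'')).mono fun ε hε => hε.le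

/-- **The inequality for one height**, with both bounds for the coefficients. -/
theorem Fam.ineqH [U.Normal] {t : ℝ} (h : Fam 𝒮 U S F D (fun _ => t) X)
    (hU : IsOpen (U : Set (GK K)))
    [Finite (GK K ⧸ U)] {β : ℝ} (hsec : Sec (Pool.Agent.W353.NF.TT 𝒮) β)
    (h2 : ∀ x, |Pool.Agent.W353.NF.TT 𝒮 x| ≤ 2) (c : κ → ℝ) {γ : ℝ} (hγ : 0 < γ) {η : ℝ}
    (hη : 0 < η) :
    ∀ᶠ ε : ℝ in 𝓝[>] 0, |∑ k ∈ S, c k * X k ε| ≤ γ / 2 * β +
      mH U t (hub γ) (fun g => ∑ k ∈ S, c k * (chi K (D k : F k) g : ℝ)) + η := by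
  choose σ hσ using exists_isFrob (F := K)
  have hcl : Cls U (fun g => ∑ k ∈ S, c k * (chi K (D k : F k) g : ℝ)) :=
    Cls.sum S fun k hk => (h.cls hk).const_mul (c k)
  have h1 := h.szH σ hσ c
  have e1 : ∀ v, ∑ k ∈ S, c k * ((chi K (D k : F k) (σ v) : ℝ) * cz t v) =
      (∑ k ∈ S, c k * (chi K (D k : F k) (σ v) : ℝ)) * cz t v := by
    intro v
    rw [Finset.sum_mul]
    exact Finset.sum_congr rfl fun k _ => by ring
  have h1' : SzH (Pool.Agent.W353.NF.TT 𝒮)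
      (fun v => (∑ k ∈ S, c k * (chi K (D k : F k) (σ v) : ℝ)) * cz t v)
      (fun ε => ∑ k ∈ S, c k * X k ε) := h1.congr e1 fun _ => rfl
  exact ineqT hcl hσ h1' hU hsec h2 hγ hη

end

end Pool.Agent.X288.L2
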